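import Pool.Agent.Y803.FD.Model
import Pool.Agent.Helper395.BC.Pencil
import Pool.Agent.Helper395.BC.Duality
import Pool.Agent.W45.PC.G

/-! The genus (dimension of `H¹(O)`) of the hyperelliptic curve `y² = f(x)`, `deg f = 2 g + 2`. -/

open scoped WithZero Matrix Polynomial IntermediateField
open WithZero

set_option linter.unusedSectionVars false

namespace Q49.HypGen

open Pool.Agent.Helper395.CS hiding genus map_mul map_inv
open Pool.Agent.Helper395.BC
open Pool.Agent.Y803.FD (Kf xf yf ιf fs fs_sep fs_deg hypf Pf_irreducible Pf)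

variable {K : Type} [Field K] [Algebra ℂ K] {x y : K} {f : ℂ[X]} {ι : K ≃ₐ[ℂ] K}

section

variable (H : Hyp x y f ι) {g : ℕ} (hd : f.natDegree = 2 * g + 2)

include H hd

theorem val_y_inf {v : Point K} (hv : 1 < v.val x) : v.val y = v.val x ^ (g + 1) := by
  have h1 : v.val (y ^ 2) = v.val x ^ (2 * g + 2) := by
    rw [H.eq, val_aeval_inf hv f H.f_ne, hd]
  rw [map_pow] at h1
  have h2 : v.val x ^ (2 * g + 2) = (v.val x ^ (g + 1)) ^ 2 := by
    rw [← pow_mul]; congr 1; ring
  rw [h2] at h1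
  exact (pow_left_inj₀ zero_le zero_le two_ne_zero).1 h1

omit hd in
theorem val_y_fin {v : Point K} (hv : v.val x ≤ 1) : v.val y ≤ 1 := by
  have h1 : v.val y ^ 2 ≤ 1 := by
    rw [← map_pow, H.eq]
    exact aeval_le hv f
  exact (pow_le_one_iff two_ne_zero).1 h1

/-- The parametrization of the sections of `m D_∞`. -/
noncomputable def par (x y : K) (m e : ℕ) : ((Fin (m + 1) → ℂ) × (Fin (e + 1) → ℂ)) →ₗ[ℂ] K :=
  (pev x (m + 1)).coprod ((LinearMap.mulRight ℂ y).comp (pev x (e + 1)))

theorem par_apply (m e : ℕ) (c : (Fin (m + 1) → ℂ) × (Fin (e + 1) → ℂ)) :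
    par x y m e c = pev x (m + 1) c.1 + pev x (e + 1) c.2 * y := by
  simp [par]

theorem par_injective (m e : ℕ) : Function.Injective (par x y m e) := by
  rw [← LinearMap.ker_eq_bot, LinearMap.ker_eq_bot']
  rintro ⟨c, d⟩ h
  rw [par_apply H hd] at h
  simp only at h
  have hc := pev_eq_aeval x (m + 1) c
  have hdd := pev_eq_aeval x (e + 1) d
  have h2 := H.coeff_zero (a := pev x (m + 1) c) (b := pev x (e + 1) d)
    (by rw [hc]; exact mem_adj _) (by rw [hdd]; exact mem_adj _) h
  have h3 : c = 0 := pev_injective H.trans _ (by rw [h2.1, map_zero])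
  have h4 : d = 0 := pev_injective H.trans _ (by rw [h2.2, map_zero])
  rw [h3, h4]
  rfl

theorem par_range (e : ℕ) :
    LinearMap.range (par x y (g + 1 + e) e) = H0 (lineH H.curve H.x_ne (g + 1 + e)) := by
  ext z
  constructor
  · rintro ⟨⟨c, d⟩, rfl⟩ v
    rw [par_apply H hd]
    change v.val _ ≤ v.val (dgen x v (g + 1 + e))
    refine Valuation.map_add_le _ (pev_le v _ _) ?_
    rw [map_mul]
    refine (mul_le_mul_left (pev_le v _ _) _).trans ?_
    by_cases hv : v.val x ≤ 1
    · rw [dgen_fin hv, dgen_fin hv, map_one, one_mul]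
      exact val_y_fin H hv
    · have hv' := not_le.1 hv
      rw [dgen_inf hv', dgen_inf hv', map_pow, map_pow, val_y_inf H hd hv', ← pow_add]
      exact le_of_eq (by congr 1; ring)
  · intro hz
    have hz' : ∀ v : Point K, v.val z ≤ v.val (dgen x v (g + 1 + e)) := hz
    obtain ⟨p, q, hpq⟩ := H.mem_ring (z := z) (fun v hv => by
      have := hz' v
      rwa [dgen_fin hv, map_one] at this)
    obtain ⟨v, hv⟩ := exists_inf H
    have h1 := H.parts_le hpq (mem_adj p) (mem_adj q) v (C := v.val x ^ (g + 1 + e)) (by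
      have := hz' v
      rwa [dgen_inf hv, map_pow] at this) (by
      have h2 : 1 < (v.comap ι).val x := by rw [H.comap_x]; exact hv
      have := hz' (v.comap ι)
      rwa [dgen_inf h2, map_pow, H.comap_x] at this)
    have hp : p.natDegree ≤ g + 1 + e := by
      rcases eq_or_ne p 0 with rfl | hp
      · simp
      · have h3 := h1.1
        rwa [val_aeval_inf hv p hp, pow_le_pow_iff_right₀ hv] at h3
    have hq : q.natDegree ≤ e := by
      rcases eq_or_ne q 0 with rfl | hq
      · simp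
      · have h3 := h1.2
        rw [map_mul, val_aeval_inf hv q hq, val_y_inf H hd hv, ← pow_add,
          pow_le_pow_iff_right₀ hv] at h3
        omega
    refine ⟨(fun j => p.coeff j, fun j => q.coeff j), ?_⟩
    rw [par_apply H hd, hpq]
    simp only
    rw [pev_coeff x p hp, pev_coeff x q hq]

theorem finrank_lineH (e : ℕ) :
    Module.finrank ℂ (H0 (lineH H.curve H.x_ne (g + 1 + e))) = g + 1 + e + 1 + (e + 1) := by
  rw [← par_range H hd e, LinearMap.finrank_range_of_inj (par_injective H hd _ _)]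
  simp

theorem degree_lineH (b : ℕ) : (lineH H.curve H.x_ne b).degree = 2 * b := by
  have h1 : ∀ v : Point K, -v.ord ((lineH H.curve H.x_ne b).frame v : K) =
      (b : ℤ) * max (-v.ord x) 0 := fun v => ord_dgen H.x_ne v b
  rw [LineBundle.degree, finsum_congr h1, ← mul_finsum]
  change (b : ℤ) * degP x = _
  rw [H.degP_x]
  ring

end

/-- The genus from the dimensions in large degrees. -/
theorem genus_of_large (hK : IsCurve K) {δ : ℕ} {H : LineBundle K} (hδ : 3 ≤ δ)
    (hH : H.degree = δ) {G : ℤ}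
    (hl : ∀ t : ℕ, δ ≤ t → FiniteDimensional ℂ (H0 (Pool.Agent.W518.PC.lpow H t)) ∧
      (Module.finrank ℂ (H0 (Pool.Agent.W518.PC.lpow H t)) : ℤ) = t * δ + 1 - G) :
    (genus K : ℤ) = G := by
  have hR := Pool.Agent.W45.PCG.riemann hK hδ hH hl
  have hl₀ := (hl δ le_rfl).2
  have hOm : ∀ D : LineBundle K,
      (∀ v s, s ∈ (Pool.Agent.W518.PC.lpow H δ).stalk v → s ∈ D.stalk v) →
      Om1 (Pool.Agent.W518.PC.lpow H δ) = Om1 D := by
    intro D hD
    obtain ⟨r1, r2⟩ := hR D
    obtain ⟨c1, c2⟩ := Pool.Agent.W45.PCG.lchain hK hD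
    obtain ⟨c3, c4⟩ := c2 r1
    apply c4
    rw [Pool.Agent.W45.PCG.lpow_degree, hH, hl₀] at c3 ⊢
    apply le_antisymm c3
    linarith
  have hbot : Om1 (Pool.Agent.W518.PC.lpow H δ) = ⊥ := by
    rw [eq_bot_iff]
    intro l hl
    rw [Submodule.mem_bot]
    refine LinearMap.ext fun r => ?_
    rw [hOm (Pool.Agent.W45.PCG.lwith (Pool.Agent.W518.PC.lpow H δ) r)
      (Pool.Agent.W45.PCG.le_lwith _ r)] at hl
    exact hl.2 r (Pool.Agent.W45.PCG.mem_lwith _ r)
  have hchi : LHasChi (Pool.Agent.W518.PC.lpow H δ) (δ * δ + 1 - G) := by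
    refine ⟨(hl δ le_rfl).1, ?_, ?_⟩
    · rw [hbot]; infer_instance
    · rw [hbot, finrank_bot]
      push_cast
      linarith
  have hchi1 := hasChi_of_hasChi hK (hasChi_lsum hchi 1) (F := lsum (one K) 1)
  obtain ⟨k1, k2, k3⟩ := lHasChi_of_lsum hchi1
  rw [lsum_degree, lsum_degree, one_degree, Pool.Agent.W45.PCG.lpow_degree, hH,
    (H0_one hK).2] at k3
  have hfr : (Module.finrank ℂ (Om1 (one K)) : ℤ) = G := by
    push_cast at k3
    linarith
  have e := Submodule.dualQuotEquivDualAnnihilator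
    ((integralRepartitions K ⊔ principalRepartitions K).comap (repartitions K).subtype)
  rw [← om1_one_eq] at e
  have h5 := e.finrank_eq
  rw [Subspace.dual_finrank_eq] at h5
  rw [← hfr, ← h5]
  rfl

section

variable (H : Hyp x y f ι) {g : ℕ} (hd : f.natDegree = 2 * g + 2)

include H hd

/-- The genus of a hyperelliptic curve. -/
theorem genus_hyp (hg : 1 ≤ g) : genus K = g := by
  have key : ∀ t : ℕ, 1 ≤ t → H0 (Pool.Agent.W518.PC.lpow (lineH H.curve H.x_ne (g + 1)) t) =
      H0 (lineH H.curve H.x_ne (g + 1 + (t - 1) * (g + 1))) := by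
    intro t ht
    apply H0_congr
    intro v
    ext s
    change v.val s ≤ v.val (((Units.mk0 (dgen x v (g + 1)) (dgen_ne H.x_ne v _)) ^ (t : ℤ) : Kˣ) : K)
      ↔ v.val s ≤ v.val (dgen x v (g + 1 + (t - 1) * (g + 1)))
    rw [zpow_natCast, Units.val_pow_eq_pow_val, Units.val_mk0]
    have e : g + 1 + (t - 1) * (g + 1) = (g + 1) * t := by
      obtain ⟨k, rfl⟩ : ∃ k, t = k + 1 := ⟨t - 1, by omega⟩
      rw [Nat.add_sub_cancel]
      ring
    have e2 : dgen x v (g + 1) ^ t = dgen x v (g + 1 + (t - 1) * (g + 1)) := by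
      rw [e]
      by_cases hv : v.val x ≤ 1
      · rw [dgen_fin hv, dgen_fin hv, one_pow]
      · rw [dgen_inf (not_le.1 hv), dgen_inf (not_le.1 hv), pow_mul]
    rw [e2]
  have h := genus_of_large (δ := 2 * (g + 1)) (H := lineH H.curve H.x_ne (g + 1)) (G := g)
    H.curve (by omega) (by rw [degree_lineH H hd]; push_cast; ring) (by
      intro t ht
      have ht1 : 1 ≤ t := by omega
      rw [key t ht1]
      have hf := finrank_lineH H hd ((t - 1) * (g + 1))
      constructor
      · exact Module.finite_of_finrank_pos (by rw [hf]; omega)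
      · rw [hf]
        obtain ⟨k, rfl⟩ : ∃ k, t = k + 1 := ⟨t - 1, by omega⟩
        rw [Nat.add_sub_cancel]
        push_cast
        ring)
  exact_mod_cast h

end

/-- Hyperelliptic curves of every genus `g ≥ 1` exist. -/
theorem exists_hyp (g : ℕ) (hg : 1 ≤ g) :
    ∃ (K : Type) (_ : Field K) (_ : Algebra ℂ K) (x y : K) (f : ℂ[X]) (ι : K ≃ₐ[ℂ] K),
      Hyp x y f ι ∧ f.natDegree = 2 * g + 2 ∧ IsCurve K ∧ genus K = g := by
  obtain ⟨s, hs⟩ := Infinite.exists_subset_card_eq ℂ (2 * g + 2)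
  have hsep := fs_sep s
  have hdeg : (fs s).natDegree = 2 * g + 2 := by rw [fs_deg, hs]
  have : Fact (Irreducible (Pf (fs s))) := ⟨Pf_irreducible hsep (by rw [hdeg]; omega)⟩
  have H := hypf (fs s) hsep
  exact ⟨Kf (fs s), inferInstance, inferInstance, xf (fs s), yf (fs s), fs s, ιf (fs s), H, hdeg,
    H.curve, genus_hyp H hdeg hg⟩

end Q49.HypGen
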