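import Pool.Agent.Q49.NotAmple
import Pool.Agent.Q49.HypGen

/-!
# Containments of Brill-Noether loci for series of small degree

A curve of genus `g > d (d - 1)` with a `g^r_d` has a `g^s_e` with `e = d - 2 (r - s)`.
-/

open scoped WithZero
open WithZero

namespace Q49.BNLoc

open Pool.Agent.Helper395.CS hiding genus
open Pool.Agent.Helper395.BC
open Pool.Agent.W525.BA
open Q49.NotAmple

/-- The curve with function field `K` has a `g^r_d`: a line bundle `L` with `deg L = d` and
`h⁰(L) ≥ r + 1`. -/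
def HasG (K : Type) [Field K] [Algebra ℂ K] (r d : ℤ) : Prop :=
  ∃ L : LineBundle K, L.degree = d ∧ r + 1 ≤ (Module.finrank ℂ (H0 L) : ℤ)

/-- `M^r_{g,d} ⊆ M^s_{g,e}`: every curve of genus `g` with a `g^r_d` has a `g^s_e`. -/
def Contained (g : ℕ) (r d s e : ℤ) : Prop :=
  ∀ (K : Type) [Field K] [Algebra ℂ K], IsCurve K → genus K = g → HasG K r d → HasG K s e

/-- `M^r_{g,d}` is not empty. -/
def LocusNonempty (g : ℕ) (r d : ℤ) : Prop :=
  ∃ (K : Type) (_ : Field K) (_ : Algebra ℂ K), IsCurve K ∧ genus K = g ∧ HasG K r d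

/-- The Brill-Noether number `ρ(g, r, d) = g - (r + 1) (g - d + r)`. -/
def rho (g r d : ℤ) : ℤ := g - (r + 1) * (g - d + r)

variable {K : Type} [Field K] [Algebra ℂ K]

/-- If `d (d - 1) < g`, a line bundle of degree `d` is not very ample. -/
theorem drop (hK : IsCurve K) {d : ℕ} (hgd : d * (d - 1) < genus K) {L : LineBundle K}
    (hd : L.degree = d) :
    ∃ P Q : Point K, Module.finrank ℂ (H0 L) ≤ Module.finrank ℂ (H0 (lsub (lsub L P) Q)) + 1 := by
  have hg : genus K ≠ 0 := by omega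
  obtain ⟨P0⟩ := point_nonempty hK
  rcases Nat.eq_zero_or_pos d with rfl | hd1
  · refine ⟨P0, P0, ?_⟩
    have h1 := h0_lsub hK hg L P0
    have h2 : (lsub L P0).degree < 0 := by rw [lsub_degree, hd]; norm_num
    rw [H0_eq_bot hK h2, finrank_bot] at h1
    omega
  by_contra hcon
  push Not at hcon
  have hpos : 0 < Module.finrank ℂ (H0 L) := lt_of_le_of_lt (Nat.zero_le _) (hcon P0 P0)
  obtain ⟨s, hs, hs0⟩ : ∃ s ∈ H0 L, s ≠ 0 := by
    apply Submodule.exists_mem_ne_zero_of_ne_bot
    intro h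
    rw [h, finrank_bot] at hpos
    omega
  set L' := lmul L (linv (lprin hK (Units.mk0 s hs0))) with hL'
  have hmu : ∀ v, mu L' v = mu L v + v.ord s := by
    intro v
    rw [hL', mu_lmul, mu_linv, mu_lprin, Units.val_mk0, neg_neg]
  have hmem : ∀ f, f ≠ 0 → f ∈ H0 L → f / s ∈ H0 L' := by
    intro f hf0 hf
    rw [mem_H0_iff (div_ne_zero hf0 hs0)]
    rw [mem_H0_iff hf0] at hf
    intro v
    rw [div_eq_mul_inv, v.ord_mul hf0 (inv_ne_zero hs0), v.ord_inv, hmu]
    have := hf v
    omega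
  have hordq : ∀ (v : Point K) (f : K), f ≠ 0 → v.ord (f / s) = v.ord f - v.ord s := by
    intro v f hf0
    rw [div_eq_mul_inv, v.ord_mul hf0 (inv_ne_zero hs0), v.ord_inv]
    ring
  -- sections of `M` that generate at `P`
  have hgen : ∀ (M : LineBundle K) (P : Point K),
      Module.finrank ℂ (H0 (lsub M P)) < Module.finrank ℂ (H0 M) →
      ∃ f ∈ H0 M, f ≠ 0 ∧ P.ord f = -mu M P := by
    intro M P h
    obtain ⟨f, hf, hfP⟩ := exists_generator M P h
    have hf0 : f ≠ 0 := by
      rintro rfl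
      rw [map_zero] at hfP
      exact (frame_pos M P).ne hfP
    refine ⟨f, hf, hf0, ?_⟩
    rw [P.val_eq_exp hf0, P.val_eq_exp (M.frame P).ne_zero, exp_inj] at hfP
    rw [mu]
    omega
  have hA : Amp L' := by
    refine ⟨fun v => ?_, fun P => ?_, fun P Q hPQ => ?_, fun P => ?_⟩
    · rw [hmu]
      have := (mem_H0_iff hs0).1 hs v
      omega
    · have h1 := h0_lsub hK hg (lsub L P) P
      have h2 := hcon P P
      obtain ⟨f, hf, hf0, hfP⟩ := hgen L P (by omega)
      refine ⟨f / s, hmem f hf0 hf, div_ne_zero hf0 hs0, ?_⟩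
      rw [hordq P f hf0, hmu, hfP]
      ring
    · have h1 := h0_lsub hK hg L Q
      have h2 := hcon Q P
      obtain ⟨f, hf, hf0, hfP⟩ := hgen (lsub L Q) P (by omega)
      have hf' := (mem_H0_iff hf0).1 hf
      have hfL : f ∈ H0 L := by
        rw [mem_H0_iff hf0]
        intro v
        have h3 := hf' v
        rcases eq_or_ne v Q with rfl | hv
        · rw [mu_lsub_self] at h3; omega
        · rw [mu_lsub_ne L hv] at h3; omega
      refine ⟨f / s, hmem f hf0 hfL, div_ne_zero hf0 hs0, ?_, ?_⟩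
      · rw [hordq P f hf0, hmu, hfP, mu_lsub_ne L hPQ.symm]
        ring
      · have h3 := hf' Q
        rw [mu_lsub_self] at h3
        rw [hordq Q f hf0, hmu]
        omega
    · have h1 := h0_lsub hK hg L P
      have h2 := hcon P P
      obtain ⟨f, hf, hf0, hfP⟩ := hgen (lsub L P) P (by omega)
      have hf' := (mem_H0_iff hf0).1 hf
      have hfL : f ∈ H0 L := by
        rw [mem_H0_iff hf0]
        intro v
        have h3 := hf' v
        rcases eq_or_ne v P with rfl | hv
        · rw [mu_lsub_self] at h3; omega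
        · rw [mu_lsub_ne L hv] at h3; omega
      refine ⟨f / s, hmem f hf0 hfL, div_ne_zero hf0 hs0, ?_⟩
      rw [hordq P f hf0, hmu, hfP, mu_lsub_self]
      ring
  have hdeg : L'.degree = d := by
    rw [hL', lmul_degree, linv_degree, lprin_degree, hd]
    ring
  have := genus_le hK hg hA hdeg hd1
  omega

/-- Removing `2 j` points lowers the number of sections by at most `j`. -/
theorem iter (hK : IsCurve K) : ∀ (j : ℕ) (L : LineBundle K) (d : ℕ), L.degree = d →
    d * (d - 1) < genus K → j + 1 ≤ Module.finrank ℂ (H0 L) →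
    ∃ M : LineBundle K, M.degree = (d : ℤ) - 2 * j ∧
      Module.finrank ℂ (H0 L) ≤ Module.finrank ℂ (H0 M) + j := by
  intro j
  induction j with
  | zero =>
    intro L d hd hg h
    exact ⟨L, by rw [hd]; simp, by omega⟩
  | succ j ih =>
    intro L d hd hg h
    obtain ⟨P, Q, hPQ⟩ := drop hK hg hd
    have hdeg : (lsub (lsub L P) Q).degree = (d : ℤ) - 2 := by
      rw [lsub_degree, lsub_degree, hd]; ring
    have hd2 : 2 ≤ d := by
      by_contra hlt
      have h1 : (lsub (lsub L P) Q).degree < 0 := by rw [hdeg]; omega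
      rw [H0_eq_bot hK h1, finrank_bot] at hPQ
      omega
    have hle : (d - 2) * (d - 2 - 1) ≤ d * (d - 1) :=
      Nat.mul_le_mul (by omega) (by omega)
    obtain ⟨M, hM1, hM2⟩ := ih (lsub (lsub L P) Q) (d - 2) (by rw [hdeg]; omega) (by omega)
      (by omega)
    refine ⟨M, ?_, by omega⟩
    rw [hM1]
    push_cast [Nat.cast_sub hd2]
    ring

/-- A `g^r_d` on a curve of genus `g > d (d - 1)` gives a `g^s_e` with `e = d - 2 (r - s)`. -/
theorem hasG_drop (hK : IsCurve K) {r s d : ℕ} (hsr : s ≤ r) (hgd : d * (d - 1) < genus K)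
    (h : HasG K r d) : HasG K s ((d : ℤ) - 2 * (r - s)) := by
  obtain ⟨L, hL1, hL2⟩ := h
  obtain ⟨M, hM1, hM2⟩ := iter hK (r - s) L d hL1 hgd (by omega)
  refine ⟨M, ?_, by omega⟩
  rw [hM1, Nat.cast_sub hsr]

theorem contained {g r s d : ℕ} (hsr : s ≤ r) (hgd : d * (d - 1) < g) :
    Contained g r d s ((d : ℤ) - 2 * (r - s)) := by
  intro K _ _ hK hgen h
  exact hasG_drop hK hsr (by omega) h

theorem hasG_add (hK : IsCurve K) (hg : genus K ≠ 0) {r d : ℤ} (h : HasG K r d) (n : ℕ) :
    HasG K r (d + n) := by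
  induction n with
  | zero => simpa using h
  | succ n ih =>
    obtain ⟨L, hL1, hL2⟩ := ih
    obtain ⟨P⟩ := point_nonempty hK
    refine ⟨lmul L (lpt P), ?_, ?_⟩
    · rw [lmul_degree, lpt_degree, hL1]; push_cast; ring
    · have := H0_finite hK hg (lmul L (lpt P))
      have h1 := Submodule.finrank_mono (H0_mono (le_lmul_lpt L P))
      omega

/-- hyperelliptic curves have a `g^r_d` for all `d ≥ 2 r` -/
theorem nonempty_locus {g r d : ℕ} (hg : 1 ≤ g) (h : 2 * r ≤ d) : LocusNonempty g r d := by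
  obtain ⟨K, i1, i2, x, y, f, ι, H, hd, hK, hgen⟩ := Q49.HypGen.exists_hyp g hg
  refine ⟨K, i1, i2, hK, hgen, ?_⟩
  have hg0 : genus K ≠ 0 := by omega
  have h1 : HasG K r (2 * r : ℤ) := by
    refine ⟨lineH H.curve H.x_ne r, Q49.HypGen.degree_lineH H hd r, ?_⟩
    have hfin := H0_finite hK hg0 (lineH H.curve H.x_ne r)
    have h2 : LinearMap.range (pev x (r + 1)) ≤ H0 (lineH H.curve H.x_ne r) := by
      rintro z ⟨c, rfl⟩ v
      exact pev_le v r c
    have h3 := Submodule.finrank_mono h2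
    rw [LinearMap.finrank_range_of_inj (pev_injective H.trans _)] at h3
    simp only [Module.finrank_fintype_fun_eq_card, Fintype.card_fin] at h3
    exact_mod_cast h3
  have h2 := hasG_add hK hg0 h1 (d - 2 * r)
  have h3 : (2 * r : ℤ) + ((d - 2 * r : ℕ) : ℤ) = d := by omega
  rwa [h3] at h2

/-- the Brill-Noether numbers are negative -/
theorem rho_neg {g r d : ℤ} (hr : 1 ≤ r) (hd : 0 ≤ d) (hg : 2 * d < g) : rho g r d < 0 := by
  unfold rho
  nlinarith [mul_nonneg (by linarith : (0 : ℤ) ≤ r - 1) (by linarith : (0 : ℤ) ≤ g - 2 * d)]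

end Q49.BNLoc
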