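import Mathlib

/-! Complex discrete Gaussians on `ℤ^g`: definitions and the product formula. -/

namespace Q49.DG

open Complex Real

/-- `B` is symmetric with positive definite real part. -/
def InH {g : ℕ} (B : Matrix (Fin g) (Fin g) ℂ) : Prop :=
  B.IsSymm ∧ (B.map Complex.re).PosDef

/-- The term `exp (2π (-½ nᵗ B n + nᵗ u))` of the theta series. -/
noncomputable def term {g : ℕ} (u : Fin g → ℂ) (B : Matrix (Fin g) (Fin g) ℂ)
    (n : Fin g → ℤ) : ℂ :=
  Complex.exp (2 * (π : ℂ) *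
    (-(1 / 2) * (∑ i, ∑ j, (n i : ℂ) * B i j * (n j : ℂ)) + ∑ i, (n i : ℂ) * u i))

/-- The Riemann theta function. -/
noncomputable def theta {g : ℕ} (u : Fin g → ℂ) (B : Matrix (Fin g) (Fin g) ℂ) : ℂ :=
  ∑' n : Fin g → ℤ, term u B n

/-- The weight function of the complex discrete Gaussian. -/
noncomputable def weight {g : ℕ} (u : Fin g → ℂ) (B : Matrix (Fin g) (Fin g) ℂ)
    (n : Fin g → ℤ) : ℂ :=
  term u B n / theta u B

/-- The moment `m_α`. -/
noncomputable def moment {g : ℕ} (u : Fin g → ℂ) (B : Matrix (Fin g) (Fin g) ℂ)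
    (α : Fin g → ℕ) : ℂ :=
  ∑' n : Fin g → ℤ, (∏ i, (n i : ℂ) ^ α i) * weight u B n

lemma moment_eq {g : ℕ} (u : Fin g → ℂ) (B : Matrix (Fin g) (Fin g) ℂ) (α : Fin g → ℕ) :
    moment u B α = (∑' n : Fin g → ℤ, (∏ i, (n i : ℂ) ^ α i) * term u B n) / theta u B := by
  unfold moment weight
  rw [← tsum_div_const]
  exact tsum_congr fun n => by ring

/-- The product formula. -/
lemma pi_prod : ∀ (g : ℕ) (h : Fin g → ℤ → ℂ), (∀ i, Summable fun k => ‖h i k‖) →
    (Summable fun n : Fin g → ℤ => ‖∏ i, h i (n i)‖) ∧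
      ∑' n : Fin g → ℤ, ∏ i, h i (n i) = ∏ i, ∑' k, h i k
  | 0, h, _ => by
    constructor
    · exact (hasSum_fintype _).summable
    · simp
  | g + 1, h, hs => by
    obtain ⟨h1, h2⟩ := pi_prod g (fun i => h i.succ) (fun i => hs i.succ)
    have e : ∀ q : ℤ × (Fin g → ℤ),
        ∏ i, h i ((Fin.consEquiv (fun _ : Fin (g + 1) => ℤ)) q i) =
          h 0 q.1 * ∏ i : Fin g, h i.succ (q.2 i) := by
      intro q
      rw [Fin.prod_univ_succ]
      rfl
    constructor
    · rw [← (Fin.consEquiv (fun _ : Fin (g + 1) => ℤ)).summable_iff]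
      have := (hs 0).mul_norm h1
      refine this.congr fun q => ?_
      rw [Function.comp_apply, e q]
    · rw [← (Fin.consEquiv (fun _ : Fin (g + 1) => ℤ)).tsum_eq, Fin.prod_univ_succ, ← h2,
        tsum_mul_tsum_of_summable_norm (hs 0) h1]
      exact tsum_congr fun q => e q

/-- Summability of `|k| ^ m exp (-c k ^ 2)`. -/
lemma summable_pow_exp (m : ℕ) {c : ℝ} (hc : 0 < c) :
    Summable fun k : ℤ => |(k : ℝ)| ^ m * Real.exp (-(c * (k : ℝ) ^ 2)) := by
  have hT : 0 < c / π := div_pos hc Real.pi_pos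
  have := summable_pow_mul_jacobiTheta₂_term_bound 0 hT m
  refine this.congr fun k => ?_
  congr 2
  · push_cast; rfl
  · field_simp
    simp

end Q49.DG
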