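import Pool.Agent.Q49.DG

/-! Two complex discrete Gaussians with the same parameter and the same moments up to order
three, in every dimension `≥ 4`. -/

namespace Q49.DGFour

open Complex Real Q49.DG

/-- The real Gaussian `exp (-π k² / 2)`. -/
noncomputable def ga (k : ℤ) : ℝ := Real.exp (-(π / 2 * (k : ℝ) ^ 2))

lemma ga_pos (k : ℤ) : 0 < ga k := Real.exp_pos _

lemma summable_ga : Summable ga := by
  have := summable_pow_exp 0 (c := π / 2) (by positivity)
  refine this.congr fun k => ?_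
  rw [pow_zero, one_mul]
  rfl

noncomputable def E : ℝ := ∑' k : ℤ, if Even k then ga k else 0
noncomputable def O : ℝ := ∑' k : ℤ, if Even k then 0 else ga k

lemma summable_E : Summable fun k : ℤ => if Even k then ga k else 0 := by
  refine Summable.of_nonneg_of_le (fun k => ?_) (fun k => ?_) summable_ga
  · split_ifs
    · exact (Real.exp_pos _).le
    · exact le_rfl
  · split_ifs
    · exact le_rfl
    · exact (Real.exp_pos _).le

lemma summable_O : Summable fun k : ℤ => if Even k then 0 else ga k := by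
  refine Summable.of_nonneg_of_le (fun k => ?_) (fun k => ?_) summable_ga
  · split_ifs
    · exact le_rfl
    · exact (Real.exp_pos _).le
  · split_ifs
    · exact (Real.exp_pos _).le
    · exact le_rfl

lemma E_eq : E = ∑' m : ℤ, Real.exp (-π / (1 / 2) * (m : ℝ) ^ 2) := by
  unfold E
  have hinj : Function.Injective (fun m : ℤ => 2 * m) := fun a b h => by
    simpa using h
  have hsupp : Function.support (fun k : ℤ => if Even k then ga k else 0) ⊆
      Set.range (fun m : ℤ => 2 * m) := by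
    intro k hk
    rw [Function.mem_support] at hk
    by_cases he : Even k
    · obtain ⟨m, hm⟩ := he
      exact ⟨m, by simp only; omega⟩
    · simp [he] at hk
  rw [← hinj.tsum_eq hsupp]
  refine tsum_congr fun m => ?_
  rw [if_pos (even_two_mul m)]
  unfold ga
  congr 1
  push_cast
  ring

lemma E_add_O : E + O = ∑' k : ℤ, Real.exp (-π * (1 / 2) * (k : ℝ) ^ 2) := by
  unfold E O
  rw [← summable_E.tsum_add summable_O]
  refine tsum_congr fun k => ?_
  have : Real.exp (-π * (1 / 2) * (k : ℝ) ^ 2) = ga k := by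
    unfold ga
    congr 1
    ring
  rw [this]
  split_ifs <;> simp

lemma E_pos : 0 < E := by
  have h0 : ∀ k : ℤ, 0 ≤ (if Even k then ga k else 0) := by
    intro k
    split_ifs
    · exact (Real.exp_pos _).le
    · exact le_rfl
  exact summable_E.tsum_pos h0 0 (by simp [ga])

lemma O_eq : O = (Real.sqrt 2 - 1) * E := by
  have h := Real.tsum_exp_neg_mul_int_sq (a := 1 / 2) (by norm_num)
  rw [← E_add_O, ← E_eq] at h
  have h2 : 1 / (1 / 2 : ℝ) ^ (1 / 2 : ℝ) = Real.sqrt 2 := by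
    rw [← Real.sqrt_eq_rpow, one_div, Real.sqrt_div' _ (by norm_num)]
    simp
  rw [h2] at h
  linarith

lemma rel : O ^ 2 + 2 * E * O - E ^ 2 = 0 := by
  rw [O_eq]
  have : Real.sqrt 2 ^ 2 = 2 := Real.sq_sqrt (by norm_num)
  linear_combination E ^ 2 * this

lemma O_pos : 0 < O := by
  rw [O_eq]
  have : 1 < Real.sqrt 2 := by
    rw [show (1 : ℝ) = Real.sqrt 1 by simp]
    exact Real.sqrt_lt_sqrt (by norm_num) (by norm_num)
  exact mul_pos (by linarith) E_pos

/-- `exp (π I k)` is the sign of `k`. -/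
noncomputable def sg (k : ℤ) : ℂ := Complex.exp (π * I * k)

lemma sg_even {k : ℤ} (h : Even k) : sg k = 1 := by
  obtain ⟨m, rfl⟩ := h
  unfold sg
  rw [show (π : ℂ) * I * ((m + m : ℤ) : ℂ) = (m : ℂ) * (2 * π * I) by push_cast; ring]
  exact Complex.exp_int_mul_two_pi_mul_I m

lemma sg_odd {k : ℤ} (h : ¬ Even k) : sg k = -1 := by
  rw [Int.not_even_iff_odd] at h
  obtain ⟨m, rfl⟩ := h
  unfold sg
  rw [show (π : ℂ) * I * ((2 * m + 1 : ℤ) : ℂ) = (m : ℂ) * (2 * π * I) + π * I by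
    push_cast; ring, Complex.exp_add, Complex.exp_int_mul_two_pi_mul_I, Complex.exp_pi_mul_I,
    one_mul]

lemma sg_neg (k : ℤ) : sg (-k) = sg k := by
  by_cases h : Even k
  · rw [sg_even h, sg_even h.neg]
  · rw [sg_odd h, sg_odd (by simpa using h)]

lemma sg_add (a b : ℤ) : sg (a + b) = sg a * sg b := by
  unfold sg
  rw [← Complex.exp_add]
  congr 1
  push_cast
  ring

/-- The one dimensional factor `exp (-(π/2)(1 - I) k²)`. -/
noncomputable def fa (k : ℤ) : ℂ := Complex.exp (-(π / 2 * (1 - I) * (k : ℂ) ^ 2))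

/-- The one dimensional factor `exp (-(π/2) k²)`. -/
noncomputable def fb (k : ℤ) : ℂ := Complex.exp (-(π / 2 * (k : ℂ) ^ 2))

lemma fb_eq (k : ℤ) : fb k = (ga k : ℂ) := by
  unfold fb ga
  push_cast
  rfl

lemma exp_sq_even {k : ℤ} (h : Even k) : Complex.exp (π / 2 * I * (k : ℂ) ^ 2) = 1 := by
  obtain ⟨m, rfl⟩ := h
  rw [show (π : ℂ) / 2 * I * ((m + m : ℤ) : ℂ) ^ 2 = ((m ^ 2 : ℤ) : ℂ) * (2 * π * I) by
    push_cast; ring]
  exact Complex.exp_int_mul_two_pi_mul_I _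

lemma exp_sq_odd {k : ℤ} (h : ¬ Even k) : Complex.exp (π / 2 * I * (k : ℂ) ^ 2) = I := by
  rw [Int.not_even_iff_odd] at h
  obtain ⟨m, rfl⟩ := h
  rw [show (π : ℂ) / 2 * I * ((2 * m + 1 : ℤ) : ℂ) ^ 2 =
    ((m ^ 2 + m : ℤ) : ℂ) * (2 * π * I) + π / 2 * I by push_cast; ring, Complex.exp_add,
    Complex.exp_int_mul_two_pi_mul_I, Complex.exp_pi_div_two_mul_I, one_mul]

lemma fa_eq (k : ℤ) : fa k = fb k * Complex.exp (π / 2 * I * (k : ℂ) ^ 2) := by
  unfold fa fb
  rw [← Complex.exp_add]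
  congr 1
  ring

lemma fa_even {k : ℤ} (h : Even k) : fa k = (ga k : ℂ) := by
  rw [fa_eq, exp_sq_even h, fb_eq, mul_one]

lemma fa_odd {k : ℤ} (h : ¬ Even k) : fa k = I * (ga k : ℂ) := by
  rw [fa_eq, exp_sq_odd h, fb_eq, mul_comm]

lemma norm_fa (k : ℤ) : ‖fa k‖ = ga k := by
  by_cases h : Even k
  · rw [fa_even h, Complex.norm_real, Real.norm_of_nonneg (ga_pos k).le]
  · rw [fa_odd h, norm_mul, Complex.norm_I, one_mul, Complex.norm_real,
      Real.norm_of_nonneg (ga_pos k).le]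

lemma norm_sg (k : ℤ) : ‖sg k‖ = 1 := by
  by_cases h : Even k
  · rw [sg_even h]; simp
  · rw [sg_odd h]; simp

lemma summable_ga_pow (m : ℕ) : Summable fun k : ℤ => |(k : ℝ)| ^ m * ga k :=
  summable_pow_exp m (c := π / 2) (by positivity)

/-- `∑ k^m fa k`, `∑ k^m (-1)^k fa k`, `∑ k^m fb k`. -/
noncomputable def Ap (m : ℕ) : ℂ := ∑' k : ℤ, (k : ℂ) ^ m * fa k
noncomputable def Am (m : ℕ) : ℂ := ∑' k : ℤ, (k : ℂ) ^ m * (fa k * sg k)

lemma norm_int_pow (k : ℤ) (m : ℕ) : ‖((k : ℂ)) ^ m‖ = |(k : ℝ)| ^ m := by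
  rw [norm_pow, Complex.norm_intCast]

lemma summable_Ap (m : ℕ) : Summable fun k : ℤ => ‖(k : ℂ) ^ m * fa k‖ := by
  refine (summable_ga_pow m).congr fun k => ?_
  rw [norm_mul, norm_int_pow, norm_fa]

lemma summable_Am (m : ℕ) : Summable fun k : ℤ => ‖(k : ℂ) ^ m * (fa k * sg k)‖ := by
  refine (summable_ga_pow m).congr fun k => ?_
  rw [norm_mul, norm_int_pow, norm_mul, norm_fa, norm_sg, mul_one]

lemma fa_neg (k : ℤ) : fa (-k) = fa k := by
  unfold fa
  congr 1
  push_cast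
  ring

lemma Ap_odd {m : ℕ} (hm : Odd m) : Ap m = 0 := by
  have h : Ap m = - Ap m := by
    conv_lhs => rw [Ap, ← (Equiv.neg ℤ).tsum_eq]
    rw [Ap, ← tsum_neg]
    refine tsum_congr fun k => ?_
    simp only [Equiv.neg_apply]
    rw [fa_neg]
    push_cast
    rw [hm.neg_pow]
    ring
  have : (2 : ℂ) * Ap m = 0 := by linear_combination h
  simpa using this

lemma Am_odd {m : ℕ} (hm : Odd m) : Am m = 0 := by
  have h : Am m = - Am m := by
    conv_lhs => rw [Am, ← (Equiv.neg ℤ).tsum_eq]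
    rw [Am, ← tsum_neg]
    refine tsum_congr fun k => ?_
    simp only [Equiv.neg_apply]
    rw [fa_neg, sg_neg]
    push_cast
    rw [hm.neg_pow]
    ring
  have : (2 : ℂ) * Am m = 0 := by linear_combination h
  simpa using this

lemma Ap_zero : Ap 0 = (E : ℂ) + I * (O : ℂ) := by
  unfold Ap E O
  rw [Complex.ofReal_tsum, Complex.ofReal_tsum, ← tsum_mul_left,
    ← (Complex.hasSum_ofReal.2 summable_E.hasSum).summable.tsum_add]
  · refine tsum_congr fun k => ?_
    by_cases h : Even k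
    · simp [h, fa_even h]
    · simp [h, fa_odd h]
  · exact (Complex.hasSum_ofReal.2 summable_O.hasSum).summable.mul_left _

lemma Am_zero : Am 0 = (E : ℂ) - I * (O : ℂ) := by
  unfold Am E O
  rw [Complex.ofReal_tsum, Complex.ofReal_tsum, ← tsum_mul_left,
    ← (Complex.hasSum_ofReal.2 summable_E.hasSum).summable.tsum_sub]
  · refine tsum_congr fun k => ?_
    by_cases h : Even k
    · simp [h, fa_even h, sg_even h]
    · simp [h, fa_odd h, sg_odd h]
  · exact (Complex.hasSum_ofReal.2 summable_O.hasSum).summable.mul_left _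

/-! ### The `g`-dimensional computation -/

/-- Indicator of the first four coordinates. -/
def a4 {g : ℕ} (i : Fin g) : ℂ := if (i : ℕ) < 4 then 1 else 0

lemma a4_sq {g : ℕ} (i : Fin g) : a4 i * a4 i = a4 i := by
  unfold a4
  split_ifs <;> simp

/-- The parameter. -/
noncomputable def BB (g : ℕ) : Matrix (Fin g) (Fin g) ℂ :=
  fun i j => (if i = j then 1 / 2 - I / 2 * a4 i else 0) + I / 2 * a4 i * a4 j

lemma a4_real {g : ℕ} (i : Fin g) : (a4 i).im = 0 := by
  unfold a4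
  split_ifs <;> simp

lemma BB_inH (g : ℕ) : InH (BB g) := by
  constructor
  · ext i j
    simp only [BB, Matrix.transpose_apply]
    by_cases h : i = j
    · subst h; ring
    · rw [if_neg h, if_neg (Ne.symm h)]; ring
  · have h : (BB g).map Complex.re = (1 / 2 : ℝ) • (1 : Matrix (Fin g) (Fin g) ℝ) := by
      ext i j
      simp only [BB, Matrix.map_apply, Matrix.smul_apply, Matrix.one_apply, a4]
      split_ifs <;> simp
    rw [h]
    exact Matrix.PosDef.one.smul (by norm_num)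

lemma BB_form {g : ℕ} (n : Fin g → ℤ) :
    ∑ i, ∑ j, (n i : ℂ) * BB g i j * (n j : ℂ) =
      ∑ i, (1 / 2 - I / 2 * a4 i) * (n i : ℂ) ^ 2 + I / 2 * (∑ i, a4 i * (n i : ℂ)) ^ 2 := by
  have h1 : ∀ i, ∑ j, (n i : ℂ) * BB g i j * (n j : ℂ) =
      (1 / 2 - I / 2 * a4 i) * (n i : ℂ) ^ 2 +
        I / 2 * (a4 i * (n i : ℂ)) * ∑ j, a4 j * (n j : ℂ) := by
    intro i
    simp only [BB, mul_add, add_mul, Finset.sum_add_distrib, mul_ite, ite_mul, mul_zero, zero_mul,
      Finset.sum_ite_eq, Finset.mem_univ, if_true]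
    rw [Finset.mul_sum]
    congr 1
    · ring
    · exact Finset.sum_congr rfl fun j _ => by ring
  simp only [h1, Finset.sum_add_distrib]
  congr 1
  rw [← Finset.sum_mul, ← Finset.mul_sum]
  ring

/-- Sum of the first four coordinates. -/
def s4 {g : ℕ} (n : Fin g → ℤ) : ℤ := ∑ i : Fin g, if (i : ℕ) < 4 then n i else 0

lemma s4_eq {g : ℕ} (n : Fin g → ℤ) : ∑ i, a4 i * (n i : ℂ) = (s4 n : ℂ) := by
  unfold s4 a4
  push_cast
  exact Finset.sum_congr rfl fun i _ => by split_ifs <;> simp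

lemma exp_s4 (s : ℤ) : Complex.exp (-(π / 2 * I * (s : ℂ) ^ 2)) =
    1 / 2 * ((1 - I) + (1 + I) * sg s) := by
  rw [Complex.exp_neg]
  by_cases h : Even s
  · rw [exp_sq_even h, sg_even h]
    ring
  · rw [exp_sq_odd h, sg_odd h, Complex.inv_I]
    ring

lemma sg_sum {ι : Type} (t : Finset ι) (f : ι → ℤ) : sg (∑ i ∈ t, f i) = ∏ i ∈ t, sg (f i) := by
  classical
  induction t using Finset.induction_on with
  | empty => simp [sg]
  | insert a s ha ih => rw [Finset.sum_insert ha, Finset.prod_insert ha, sg_add, ih]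

/-- The one dimensional factor attached to coordinate `i`. -/
noncomputable def fi {g : ℕ} (i : Fin g) (k : ℤ) : ℂ := if (i : ℕ) < 4 then fa k else fb k

/-- The sign of the coordinate `i` (for the first four coordinates). -/
noncomputable def si {g : ℕ} (i : Fin g) (k : ℤ) : ℂ := if (i : ℕ) < 4 then sg k else 1

/-- The vector `u = (I/2) e_j`. -/
noncomputable def uj {g : ℕ} (j : Fin g) : Fin g → ℂ := Pi.single j (I / 2)

/-- The sign `(-1)^{n_j}` at the coordinate `j`. -/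
noncomputable def sj {g : ℕ} (j i : Fin g) (k : ℤ) : ℂ := if i = j then sg k else 1

lemma term_eq {g : ℕ} (j : Fin g) (n : Fin g → ℤ) :
    term (uj j) (BB g) n =
      1 / 2 * ((1 - I) * ∏ i, (fi i (n i) * sj j i (n i)) +
        (1 + I) * ∏ i, (fi i (n i) * sj j i (n i) * si i (n i))) := by
  have h1 : term (uj j) (BB g) n =
      (∏ i, (fi i (n i) * sj j i (n i))) * Complex.exp (-(π / 2 * I * (s4 n : ℂ) ^ 2)) := by
    unfold term
    rw [BB_form, s4_eq]
    have h2 : ∏ i, (fi i (n i) * sj j i (n i)) =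
        Complex.exp (∑ i, (-(π * ((1 / 2 - I / 2 * a4 i) * (n i : ℂ) ^ 2))) +
          ∑ i, 2 * π * ((n i : ℂ) * uj j i)) := by
      rw [← Finset.sum_add_distrib, Complex.exp_sum]
      refine Finset.prod_congr rfl fun i _ => ?_
      rw [Complex.exp_add]
      congr 1
      · unfold fi fa fb a4
        split_ifs
        · congr 1; ring
        · congr 1; ring
      · unfold sj uj sg
        by_cases h : i = j
        · subst h
          rw [if_pos rfl, Pi.single_eq_same]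
          congr 1; ring
        · rw [if_neg h, Pi.single_eq_of_ne h]
          simp
    rw [h2, ← Complex.exp_add]
    congr 1
    rw [Finset.sum_neg_distrib, ← Finset.mul_sum, ← Finset.mul_sum]
    ring
  rw [h1, exp_s4]
  have h3 : sg (s4 n) = ∏ i, si i (n i) := by
    unfold s4
    rw [sg_sum]
    refine Finset.prod_congr rfl fun i _ => ?_
    unfold si
    split_ifs
    · rfl
    · simp [sg]
  rw [h3, Finset.prod_mul_distrib (f := fun i => fi i (n i) * sj j i (n i))]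
  ring

noncomputable def Rm (m : ℕ) : ℂ := ∑' k : ℤ, (k : ℂ) ^ m * fb k

lemma norm_fb (k : ℤ) : ‖fb k‖ = ga k := by
  rw [fb_eq, Complex.norm_real, Real.norm_of_nonneg (ga_pos k).le]

lemma norm_fi {g : ℕ} (i : Fin g) (k : ℤ) : ‖fi i k‖ = ga k := by
  unfold fi
  split_ifs
  · exact norm_fa k
  · exact norm_fb k

lemma norm_si {g : ℕ} (i : Fin g) (k : ℤ) : ‖si i k‖ = 1 := by
  unfold si
  split_ifs
  · exact norm_sg k
  · simp

lemma norm_sj {g : ℕ} (j i : Fin g) (k : ℤ) : ‖sj j i k‖ = 1 := by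
  unfold sj
  split_ifs
  · exact norm_sg k
  · simp

/-- The sums `∑ n^α term`. -/
lemma sum_term {g : ℕ} (j : Fin g) (α : Fin g → ℕ) :
    ∑' n : Fin g → ℤ, (∏ i, (n i : ℂ) ^ α i) * term (uj j) (BB g) n =
      1 / 2 * ((1 - I) * ∏ i, ∑' k : ℤ, (k : ℂ) ^ α i * (fi i k * sj j i k) +
        (1 + I) * ∏ i, ∑' k : ℤ, (k : ℂ) ^ α i * (fi i k * sj j i k * si i k)) := by
  have s1 : ∀ i : Fin g, Summable fun k : ℤ => ‖(k : ℂ) ^ α i * (fi i k * sj j i k)‖ := by
    intro i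
    refine (summable_ga_pow (α i)).congr fun k => ?_
    rw [norm_mul, norm_int_pow, norm_mul, norm_fi, norm_sj, mul_one]
  have s2 : ∀ i : Fin g, Summable fun k : ℤ => ‖(k : ℂ) ^ α i * (fi i k * sj j i k * si i k)‖ := by
    intro i
    refine (summable_ga_pow (α i)).congr fun k => ?_
    rw [norm_mul, norm_int_pow, norm_mul, norm_mul, norm_fi, norm_sj, norm_si, mul_one, mul_one]
  obtain ⟨p1, p2⟩ := pi_prod g (fun i k => (k : ℂ) ^ α i * (fi i k * sj j i k)) s1
  obtain ⟨q1, q2⟩ := pi_prod g (fun i k => (k : ℂ) ^ α i * (fi i k * sj j i k * si i k)) s2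
  rw [← p2, ← q2, ← tsum_mul_left, ← tsum_mul_left, ← (p1.of_norm.mul_left _).tsum_add
    (q1.of_norm.mul_left _), ← tsum_mul_left]
  refine tsum_congr fun n => ?_
  rw [term_eq]
  simp only [Finset.prod_mul_distrib]
  ring

lemma tA1 {g : ℕ} {j i : Fin g} (m : ℕ) (h : (i : ℕ) < 4) (hij : i ≠ j) :
    ∑' k : ℤ, (k : ℂ) ^ m * (fi i k * sj j i k) = Ap m := by
  unfold Ap fi sj
  simp only [if_pos h, if_neg hij, mul_one]

lemma tA2 {g : ℕ} {j i : Fin g} (m : ℕ) (h : (i : ℕ) < 4) (hij : i = j) :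
    ∑' k : ℤ, (k : ℂ) ^ m * (fi i k * sj j i k) = Am m := by
  unfold Am fi sj
  simp only [if_pos h, if_pos hij]

lemma tA3 {g : ℕ} {j i : Fin g} (m : ℕ) (h : ¬ (i : ℕ) < 4) (hij : i ≠ j) :
    ∑' k : ℤ, (k : ℂ) ^ m * (fi i k * sj j i k) = Rm m := by
  unfold Rm fi sj
  simp only [if_neg h, if_neg hij, mul_one]

lemma tB1 {g : ℕ} {j i : Fin g} (m : ℕ) (h : (i : ℕ) < 4) (hij : i ≠ j) :
    ∑' k : ℤ, (k : ℂ) ^ m * (fi i k * sj j i k * si i k) = Am m := by
  unfold Am fi sj si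
  simp only [if_pos h, if_neg hij, mul_one]

lemma tB2 {g : ℕ} {j i : Fin g} (m : ℕ) (h : (i : ℕ) < 4) (hij : i = j) :
    ∑' k : ℤ, (k : ℂ) ^ m * (fi i k * sj j i k * si i k) = Ap m := by
  unfold Ap fi sj si
  simp only [if_pos h, if_pos hij]
  refine tsum_congr fun k => ?_
  have : sg k * sg k = 1 := by
    by_cases h : Even k
    · rw [sg_even h]; ring
    · rw [sg_odd h]; ring
  linear_combination (k : ℂ) ^ m * fa k * this

lemma tB3 {g : ℕ} {j i : Fin g} (m : ℕ) (h : ¬ (i : ℕ) < 4) (hij : i ≠ j) :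
    ∑' k : ℤ, (k : ℂ) ^ m * (fi i k * sj j i k * si i k) = Rm m := by
  unfold Rm fi sj si
  simp only [if_neg h, if_neg hij, mul_one]

/-- The common value of the factors outside of the first four coordinates. -/
noncomputable def rest (k : ℕ) (α : Fin (k + 4) → ℕ) : ℂ :=
  ∏ i : Fin k, Rm (α i.succ.succ.succ.succ)

/-- In dimension `k + 4`, for `u = (I/2) e_0`. -/
lemma sum_term_zero (k : ℕ) (α : Fin (k + 4) → ℕ) :
    ∑' n : Fin (k + 4) → ℤ, (∏ i, (n i : ℂ) ^ α i) * term (uj 0) (BB (k + 4)) n =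
      1 / 2 * ((1 - I) * (Am (α 0) * Ap (α 1) * Ap (α 2) * Ap (α 3)) +
        (1 + I) * (Ap (α 0) * Am (α 1) * Am (α 2) * Am (α 3))) * rest k α := by
  have c0 : ((0 : Fin (k + 4)) : ℕ) < 4 := by simp
  have c1 : ((Fin.succ (0 : Fin (k + 3)) : Fin (k + 4)) : ℕ) < 4 := by
    rw [Fin.val_succ]; simp
  have c2 : ((Fin.succ (Fin.succ (0 : Fin (k + 2))) : Fin (k + 4)) : ℕ) < 4 := by
    rw [Fin.val_succ, Fin.val_succ]; simp
  have c3 : ((Fin.succ (Fin.succ (Fin.succ (0 : Fin (k + 1)))) : Fin (k + 4)) : ℕ) < 4 := by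
    rw [Fin.val_succ, Fin.val_succ, Fin.val_succ]; simp
  have h1 : ∏ i : Fin (k + 4), ∑' l : ℤ, (l : ℂ) ^ α i * (fi i l * sj 0 i l) =
      Am (α 0) * Ap (α 1) * Ap (α 2) * Ap (α 3) * rest k α := by
    rw [Fin.prod_univ_succ, Fin.prod_univ_succ, Fin.prod_univ_succ, Fin.prod_univ_succ]
    have h5 : ∏ i : Fin k, ∑' l : ℤ, (l : ℂ) ^ α i.succ.succ.succ.succ *
        (fi i.succ.succ.succ.succ l * sj 0 i.succ.succ.succ.succ l) = rest k α :=
      Finset.prod_congr rfl fun i _ => tA3 _ (by simp) (Fin.succ_ne_zero _)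
    rw [h5, tA2 _ c0 rfl, tA1 _ c1 (Fin.succ_ne_zero _),
      tA1 _ c2 (Fin.succ_ne_zero _), tA1 _ c3 (Fin.succ_ne_zero _)]
    simp only [mul_assoc]
    rfl
  have h2 : ∏ i : Fin (k + 4), ∑' l : ℤ, (l : ℂ) ^ α i * (fi i l * sj 0 i l * si i l) =
      Ap (α 0) * Am (α 1) * Am (α 2) * Am (α 3) * rest k α := by
    rw [Fin.prod_univ_succ, Fin.prod_univ_succ, Fin.prod_univ_succ, Fin.prod_univ_succ]
    have h5 : ∏ i : Fin k, ∑' l : ℤ, (l : ℂ) ^ α i.succ.succ.succ.succ *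
        (fi i.succ.succ.succ.succ l * sj 0 i.succ.succ.succ.succ l *
          si i.succ.succ.succ.succ l) = rest k α :=
      Finset.prod_congr rfl fun i _ => tB3 _ (by simp) (Fin.succ_ne_zero _)
    rw [h5, tB2 _ c0 rfl, tB1 _ c1 (Fin.succ_ne_zero _),
      tB1 _ c2 (Fin.succ_ne_zero _), tB1 _ c3 (Fin.succ_ne_zero _)]
    simp only [mul_assoc]
    rfl
  rw [sum_term, h1, h2]
  ring

/-- In dimension `k + 4`, for `u = (I/2) e_1`. -/
lemma sum_term_one (k : ℕ) (α : Fin (k + 4) → ℕ) :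
    ∑' n : Fin (k + 4) → ℤ, (∏ i, (n i : ℂ) ^ α i) * term (uj 1) (BB (k + 4)) n =
      1 / 2 * ((1 - I) * (Ap (α 0) * Am (α 1) * Ap (α 2) * Ap (α 3)) +
        (1 + I) * (Am (α 0) * Ap (α 1) * Am (α 2) * Am (α 3))) * rest k α := by
  have c0 : ((0 : Fin (k + 4)) : ℕ) < 4 := by simp
  have c1 : ((Fin.succ (0 : Fin (k + 3)) : Fin (k + 4)) : ℕ) < 4 := by
    rw [Fin.val_succ]; simp
  have c2 : ((Fin.succ (Fin.succ (0 : Fin (k + 2))) : Fin (k + 4)) : ℕ) < 4 := by
    rw [Fin.val_succ, Fin.val_succ]; simp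
  have c3 : ((Fin.succ (Fin.succ (Fin.succ (0 : Fin (k + 1)))) : Fin (k + 4)) : ℕ) < 4 := by
    rw [Fin.val_succ, Fin.val_succ, Fin.val_succ]; simp
  have e1 : (1 : Fin (k + 4)) = Fin.succ (0 : Fin (k + 3)) := rfl
  have h1 : ∏ i : Fin (k + 4), ∑' l : ℤ, (l : ℂ) ^ α i * (fi i l * sj 1 i l) =
      Ap (α 0) * Am (α 1) * Ap (α 2) * Ap (α 3) * rest k α := by
    rw [Fin.prod_univ_succ, Fin.prod_univ_succ, Fin.prod_univ_succ, Fin.prod_univ_succ]
    have h5 : ∏ i : Fin k, ∑' l : ℤ, (l : ℂ) ^ α i.succ.succ.succ.succ *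
        (fi i.succ.succ.succ.succ l * sj 1 i.succ.succ.succ.succ l) = rest k α :=
      Finset.prod_congr rfl fun i _ => tA3 _ (by simp) (by
        rw [e1, Ne, Fin.succ_inj]; exact Fin.succ_ne_zero _)
    rw [h5, tA1 _ c0 (by rw [e1]; exact (Fin.succ_ne_zero _).symm), e1,
      tA2 (j := Fin.succ 0) (i := Fin.succ 0) _ c1 rfl,
      tA1 _ c2 (by rw [Ne, Fin.succ_inj]; exact Fin.succ_ne_zero _),
      tA1 _ c3 (by rw [Ne, Fin.succ_inj]; exact Fin.succ_ne_zero _)]
    simp only [mul_assoc]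
    rfl
  have h2 : ∏ i : Fin (k + 4), ∑' l : ℤ, (l : ℂ) ^ α i * (fi i l * sj 1 i l * si i l) =
      Am (α 0) * Ap (α 1) * Am (α 2) * Am (α 3) * rest k α := by
    rw [Fin.prod_univ_succ, Fin.prod_univ_succ, Fin.prod_univ_succ, Fin.prod_univ_succ]
    have h5 : ∏ i : Fin k, ∑' l : ℤ, (l : ℂ) ^ α i.succ.succ.succ.succ *
        (fi i.succ.succ.succ.succ l * sj 1 i.succ.succ.succ.succ l *
          si i.succ.succ.succ.succ l) = rest k α :=
      Finset.prod_congr rfl fun i _ => tB3 _ (by simp) (by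
        rw [e1, Ne, Fin.succ_inj]; exact Fin.succ_ne_zero _)
    rw [h5, tB1 _ c0 (by rw [e1]; exact (Fin.succ_ne_zero _).symm), e1,
      tB2 (j := Fin.succ 0) (i := Fin.succ 0) _ c1 rfl,
      tB1 _ c2 (by rw [Ne, Fin.succ_inj]; exact Fin.succ_ne_zero _),
      tB1 _ c3 (by rw [Ne, Fin.succ_inj]; exact Fin.succ_ne_zero _)]
    simp only [mul_assoc]
    rfl
  rw [sum_term, h1, h2]
  ring

lemma relC : (O : ℂ) ^ 2 + 2 * E * O - E ^ 2 = 0 := by
  have := rel
  exact_mod_cast this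

/-- The two series of moments agree up to order three. -/
lemma sums_agree (k : ℕ) (α : Fin (k + 4) → ℕ) (hα : ∑ i, α i ≤ 3) :
    ∑' n : Fin (k + 4) → ℤ, (∏ i, (n i : ℂ) ^ α i) * term (uj 0) (BB (k + 4)) n =
    ∑' n : Fin (k + 4) → ℤ, (∏ i, (n i : ℂ) ^ α i) * term (uj 1) (BB (k + 4)) n := by
  rw [sum_term_zero, sum_term_one]
  have hsum : α 0 + α 1 + α 2 + α 3 ≤ 3 := by
    have h := hα
    rw [Fin.sum_univ_succ, Fin.sum_univ_succ, Fin.sum_univ_succ, Fin.sum_univ_succ] at h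
    have e1 : (1 : Fin (k + 4)) = Fin.succ (0 : Fin (k + 3)) := rfl
    have e2 : (2 : Fin (k + 4)) = Fin.succ (Fin.succ (0 : Fin (k + 2))) := rfl
    have e3 : (3 : Fin (k + 4)) = Fin.succ (Fin.succ (Fin.succ (0 : Fin (k + 1)))) := rfl
    rw [e1, e2, e3]
    omega
  have key : (Am (α 0) * Ap (α 1) - Ap (α 0) * Am (α 1)) *
      ((1 - I) * (Ap (α 2) * Ap (α 3)) - (1 + I) * (Am (α 2) * Am (α 3))) = 0 := by
    by_cases h01 : α 0 = α 1
    · rw [h01]; ring
    · by_cases ho : Odd (α 0)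
      · rw [Am_odd ho, Ap_odd ho]; ring
      by_cases ho1 : Odd (α 1)
      · rw [Am_odd ho1, Ap_odd ho1]; ring
      rw [Nat.not_odd_iff_even] at ho ho1
      obtain ⟨r, hr⟩ := ho
      obtain ⟨t, ht⟩ := ho1
      by_cases h2 : α 2 = 1
      · rw [h2, Am_odd odd_one, Ap_odd odd_one]; ring
      by_cases h3 : α 3 = 1
      · rw [h3, Am_odd odd_one, Ap_odd odd_one]; ring
      have h20 : α 2 = 0 := by omega
      have h30 : α 3 = 0 := by omega
      rw [h20, h30, Ap_zero, Am_zero]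
      have : (1 - I) * (((E : ℂ) + I * O) * ((E : ℂ) + I * O)) -
          (1 + I) * (((E : ℂ) - I * O) * ((E : ℂ) - I * O)) = 0 := by
        have hI : I ^ 2 = -1 := Complex.I_sq
        linear_combination (2 * I) * relC + (-2 * I * (O : ℂ) ^ 2) * hI
      rw [this, mul_zero]
  linear_combination (1 / 2) * rest k α * key

lemma Rm_zero_ne : Rm 0 ≠ 0 := by
  have h : Rm 0 = ((∑' k : ℤ, ga k : ℝ) : ℂ) := by
    unfold Rm
    rw [Complex.ofReal_tsum]
    exact tsum_congr fun k => by rw [pow_zero, one_mul, fb_eq]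
  rw [h, Ne, Complex.ofReal_eq_zero]
  exact (summable_ga.tsum_pos (fun k => (ga_pos k).le) 0 (ga_pos 0)).ne'

lemma theta_eq (k : ℕ) (j : Fin (k + 4)) : theta (uj j) (BB (k + 4)) =
    ∑' n : Fin (k + 4) → ℤ, (∏ i, (n i : ℂ) ^ (0 : Fin (k + 4) → ℕ) i) *
      term (uj j) (BB (k + 4)) n := by
  unfold theta
  exact tsum_congr fun n => by simp

lemma theta_zero_ne (k : ℕ) : theta (uj 0) (BB (k + 4)) ≠ 0 := by
  rw [theta_eq, sum_term_zero]
  have hrest : rest k 0 ≠ 0 := by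
    unfold rest
    rw [Finset.prod_ne_zero_iff]
    intro i _
    exact Rm_zero_ne
  refine mul_ne_zero ?_ hrest
  simp only [Pi.zero_apply, Ap_zero, Am_zero]
  have hI : I ^ 2 = -1 := Complex.I_sq
  have e : (1 : ℂ) / 2 * ((1 - I) * (((E : ℂ) - I * O) * (E + I * O) * (E + I * O) * (E + I * O)) +
      (1 + I) * (((E : ℂ) + I * O) * (E - I * O) * (E - I * O) * (E - I * O))) =
      (((E ^ 2 + O ^ 2) * (E ^ 2 - O ^ 2 + 2 * E * O) : ℝ) : ℂ) := by
    push_cast
    linear_combination (-2 * (E : ℂ) * O ^ 3 - 2 * (E : ℂ) ^ 3 * O + 2 * I ^ 2 * E * O ^ 3 +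
      (O : ℂ) ^ 4 * (1 - I ^ 2)) * hI
  rw [e, Ne, Complex.ofReal_eq_zero]
  have h1 := E_pos
  have h2 := O_pos
  have h3 := rel
  have h4 : E ^ 2 - O ^ 2 + 2 * E * O = 4 * E * O := by linarith
  rw [h4]
  positivity

lemma theta_agree (k : ℕ) : theta (uj 0) (BB (k + 4)) = theta (uj 1) (BB (k + 4)) := by
  rw [theta_eq, theta_eq]
  exact sums_agree k 0 (by simp)

lemma moments_agree (k : ℕ) (α : Fin (k + 4) → ℕ) (hα : ∑ i, α i ≤ 3) :
    moment (uj 0) (BB (k + 4)) α = moment (uj 1) (BB (k + 4)) α := by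
  rw [moment_eq, moment_eq, sums_agree k α hα, theta_agree]

/-- The two weight functions differ at `n = e_0`. -/
lemma weights_differ (k : ℕ) :
    weight (uj 0) (BB (k + 4)) (Pi.single 0 1) ≠ weight (uj 1) (BB (k + 4)) (Pi.single 0 1) := by
  unfold weight
  rw [← theta_agree]
  intro h
  have h2 := (div_left_inj' (theta_zero_ne k)).1 h
  unfold term at h2
  have e0 : ∑ i, ((Pi.single 0 1 : Fin (k + 4) → ℤ) i : ℂ) * (uj (0 : Fin (k + 4))) i = I / 2 := by
    rw [Finset.sum_eq_single 0]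
    · simp [uj]
    · intro b _ hb
      simp [hb]
    · simp
  have e1 : ∑ i, ((Pi.single 0 1 : Fin (k + 4) → ℤ) i : ℂ) * (uj (1 : Fin (k + 4))) i = 0 := by
    refine Finset.sum_eq_zero fun i _ => ?_
    by_cases hi : i = 0
    · subst hi
      have : (0 : Fin (k + 4)) ≠ 1 := by
        have e1 : (1 : Fin (k + 4)) = Fin.succ (0 : Fin (k + 3)) := rfl
        rw [e1]; exact (Fin.succ_ne_zero _).symm
      simp [uj, this]
    · simp [hi]
  rw [e0, e1, mul_add, Complex.exp_add, mul_add, Complex.exp_add] at h2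
  have h3 := mul_left_cancel₀ (Complex.exp_ne_zero _) h2
  rw [show (2 : ℂ) * π * (I / 2) = π * I by ring, Complex.exp_pi_mul_I, mul_zero,
    Complex.exp_zero] at h3
  norm_num at h3

end Q49.DGFour
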