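import Pool.Agent.Q49.DG

/-! Two one-dimensional complex discrete Gaussians with complex conjugate parameters and the same
moments up to order three, and their extension to all dimensions. -/

namespace Q49.DGOne

open Complex Real Q49.DG

/-- `T(q) = ∑_{n ≥ 1} q^{n²}`. -/
noncomputable def T (q : ℂ) : ℂ := ∑' n : ℕ, q ^ ((n + 1) ^ 2)

/-- `S(q) = ∑_{n ≥ 1} n² q^{n²}`. -/
noncomputable def S (q : ℂ) : ℂ := ∑' n : ℕ, ((n : ℂ) + 1) ^ 2 * q ^ ((n + 1) ^ 2)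

/-- Tail bounds. -/
lemma tail_T_term {r : ℝ} (h0 : 0 ≤ r) (h1 : r ≤ 1) (N n : ℕ) :
    r ^ ((n + N) ^ 2) ≤ r ^ (N ^ 2) * (r ^ (2 * N)) ^ n := by
  rw [← pow_mul, ← pow_add]
  exact pow_le_pow_of_le_one h0 h1 (by nlinarith)

lemma sq_growth (N : ℕ) (hN : 2 ≤ N) (n : ℕ) :
    ((n : ℝ) + N) ^ 2 ≤ (N : ℝ) ^ 2 * (9 / 4) ^ n := by
  induction n with
  | zero => simp
  | succ n ih =>
    have hN' : (2 : ℝ) ≤ N := by exact_mod_cast hN
    have hn : (0 : ℝ) ≤ n := Nat.cast_nonneg n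
    have : ((n : ℝ) + 1 + N) ^ 2 ≤ 9 / 4 * ((n : ℝ) + N) ^ 2 := by nlinarith
    push_cast
    rw [pow_succ (9 / 4 : ℝ) n]
    linarith

lemma tail_S_term {r : ℝ} (h0 : 0 ≤ r) (h1 : r ≤ 1) (N : ℕ) (hN : 2 ≤ N) (n : ℕ) :
    ((n : ℝ) + N) ^ 2 * r ^ ((n + N) ^ 2) ≤
      (N : ℝ) ^ 2 * r ^ (N ^ 2) * (9 / 4 * r ^ (2 * N)) ^ n := by
  have h2 := tail_T_term h0 h1 N n
  have h3 := sq_growth N hN n
  calc ((n : ℝ) + N) ^ 2 * r ^ ((n + N) ^ 2)
      ≤ ((N : ℝ) ^ 2 * (9 / 4) ^ n) * (r ^ (N ^ 2) * (r ^ (2 * N)) ^ n) :=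
        mul_le_mul h3 h2 (by positivity) (by positivity)
    _ = _ := by rw [mul_pow]; ring

lemma tail_T {q : ℂ} {r : ℝ} (hq : ‖q‖ ≤ r) (h1 : r < 1) (N : ℕ) (hN : 1 ≤ N) :
    (Summable fun n : ℕ => q ^ ((n + N) ^ 2)) ∧
    ‖∑' n : ℕ, q ^ ((n + N) ^ 2)‖ ≤ r ^ (N ^ 2) / (1 - r ^ (2 * N)) := by
  have h0 : 0 ≤ r := (norm_nonneg q).trans hq
  have hr : r ^ (2 * N) < 1 := pow_lt_one₀ h0 h1 (by omega)
  have hg : HasSum (fun n : ℕ => r ^ (N ^ 2) * (r ^ (2 * N)) ^ n)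
      (r ^ (N ^ 2) / (1 - r ^ (2 * N))) := by
    have := (hasSum_geometric_of_lt_one (by positivity) hr).mul_left (r ^ (N ^ 2))
    rwa [div_eq_mul_inv]
  have hb : ∀ n : ℕ, ‖q ^ ((n + N) ^ 2)‖ ≤ r ^ (N ^ 2) * (r ^ (2 * N)) ^ n := by
    intro n
    rw [norm_pow]
    exact (pow_le_pow_left₀ (norm_nonneg _) hq _).trans (tail_T_term h0 h1.le N n)
  exact ⟨Summable.of_norm_bounded hg.summable hb, tsum_of_norm_bounded hg hb⟩

lemma tail_S {q : ℂ} {r : ℝ} (hq : ‖q‖ ≤ r) (h1 : r < 1) (N : ℕ) (hN : 2 ≤ N)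
    (h2 : 9 / 4 * r ^ (2 * N) < 1) :
    (Summable fun n : ℕ => ((n : ℂ) + N) ^ 2 * q ^ ((n + N) ^ 2)) ∧
    ‖∑' n : ℕ, ((n : ℂ) + N) ^ 2 * q ^ ((n + N) ^ 2)‖ ≤
      (N : ℝ) ^ 2 * r ^ (N ^ 2) / (1 - 9 / 4 * r ^ (2 * N)) := by
  have h0 : 0 ≤ r := (norm_nonneg q).trans hq
  have hg : HasSum (fun n : ℕ => (N : ℝ) ^ 2 * r ^ (N ^ 2) * (9 / 4 * r ^ (2 * N)) ^ n)
      ((N : ℝ) ^ 2 * r ^ (N ^ 2) / (1 - 9 / 4 * r ^ (2 * N))) := by
    have := (hasSum_geometric_of_lt_one (by positivity) h2).mul_left ((N : ℝ) ^ 2 * r ^ (N ^ 2))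
    rwa [div_eq_mul_inv]
  have hb : ∀ n : ℕ, ‖((n : ℂ) + N) ^ 2 * q ^ ((n + N) ^ 2)‖ ≤
      (N : ℝ) ^ 2 * r ^ (N ^ 2) * (9 / 4 * r ^ (2 * N)) ^ n := by
    intro n
    rw [norm_mul, norm_pow, norm_pow]
    have e : ‖((n : ℂ) + N)‖ = (n : ℝ) + N := by
      have : ((n : ℂ) + N) = (((n : ℝ) + N : ℝ) : ℂ) := by push_cast; rfl
      rw [this, Complex.norm_real, Real.norm_of_nonneg (by positivity)]
    rw [e]
    refine le_trans ?_ (tail_S_term h0 h1.le N hN n)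
    exact mul_le_mul_of_nonneg_left (pow_le_pow_left₀ (norm_nonneg _) hq _) (by positivity)
  exact ⟨Summable.of_norm_bounded hg.summable hb, tsum_of_norm_bounded hg hb⟩

lemma split_T {q : ℂ} {r : ℝ} (hq : ‖q‖ ≤ r) (h1 : r < 1) (N : ℕ) :
    T q = ∑ i ∈ Finset.range N, q ^ ((i + 1) ^ 2) + ∑' n : ℕ, q ^ ((n + (N + 1)) ^ 2) := by
  have hs := (tail_T hq h1 1 le_rfl).1
  unfold T
  rw [← hs.sum_add_tsum_nat_add N]
  rfl

lemma split_S {q : ℂ} {r : ℝ} (hq : ‖q‖ ≤ r) (h1 : r < 1) (h2 : 9 / 4 * r ^ 4 < 1) (N : ℕ) :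
    S q = ∑ i ∈ Finset.range N, ((i : ℂ) + 1) ^ 2 * q ^ ((i + 1) ^ 2) +
      ∑' n : ℕ, ((n : ℂ) + (N + 1 : ℕ)) ^ 2 * q ^ ((n + (N + 1)) ^ 2) := by
  have hs2 := (tail_S hq h1 2 le_rfl h2).1
  have hs : Summable fun n : ℕ => ((n : ℂ) + 1) ^ 2 * q ^ ((n + 1) ^ 2) := by
    rw [← summable_nat_add_iff 1]
    refine hs2.congr fun n => ?_
    push_cast
    ring_nf
  unfold S
  rw [← hs.sum_add_tsum_nat_add N]
  congr 1
  refine tsum_congr fun n => ?_
  push_cast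
  ring_nf

/-- The function whose sign is studied. -/
noncomputable def F (q : ℂ) : ℝ := ((2 * S q) * (starRingEnd ℂ) (1 + 2 * T q)).im

/-- The base point `(1 + 3 i) / 5`. -/
noncomputable def q1 : ℂ := ⟨1 / 5, 3 / 5⟩

lemma norm_q1_sq : ‖q1‖ ^ 2 = 2 / 5 := by
  rw [← Complex.normSq_eq_norm_sq, Complex.normSq_apply]
  simp only [q1]
  norm_num

/-- real number `√(2/5)`. -/
noncomputable def r1 : ℝ := ‖q1‖

lemma r1_nonneg : 0 ≤ r1 := norm_nonneg _

lemma r1_sq : r1 ^ 2 = 2 / 5 := norm_q1_sq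

lemma r1_lt : r1 < 1 := by
  have h := r1_sq
  have h0 := r1_nonneg
  nlinarith

lemma theta_ne {q : ℂ} (hq : ‖q‖ ≤ r1) (hre : 0 ≤ q.re) : 1 + 2 * T q ≠ 0 := by
  have h := split_T hq r1_lt 1
  have hb := (tail_T hq r1_lt 2 (by norm_num)).2
  have e1 : r1 ^ (2 ^ 2) / (1 - r1 ^ (2 * 2)) = 4 / 21 := by
    have : r1 ^ 4 = 4 / 25 := by
      rw [show r1 ^ 4 = (r1 ^ 2) ^ 2 by ring, r1_sq]; norm_num
    norm_num [this]
  rw [e1] at hb
  simp only [Finset.range_one, Finset.sum_singleton, zero_add, one_pow, pow_one] at h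
  intro hz
  have hre2 : (∑' n : ℕ, q ^ ((n + (1 + 1)) ^ 2)).re ≥ -(4 / 21) := by
    have := (abs_le.1 ((Complex.abs_re_le_norm _).trans hb)).1
    simpa using this
  have h3 := congrArg Complex.re hz
  rw [h] at h3
  simp only [add_re, one_re, mul_re, re_ofNat, im_ofNat, zero_mul, sub_zero, zero_re, add_im] at h3
  linarith

lemma F_q1 : F q1 < 0 := by
  have hT := split_T (q := q1) (r := r1) le_rfl r1_lt 3
  have hS := split_S (q := q1) (r := r1) le_rfl r1_lt (by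
    rw [show r1 ^ 4 = (r1 ^ 2) ^ 2 by ring, r1_sq]; norm_num) 3
  have bT := (tail_T (q := q1) (r := r1) le_rfl r1_lt 4 (by norm_num)).2
  have bS := (tail_S (q := q1) (r := r1) le_rfl r1_lt 4 (by norm_num) (by
    rw [show r1 ^ (2 * 4) = (r1 ^ 2) ^ 4 by ring, r1_sq]; norm_num)).2
  rw [show r1 ^ (4 ^ 2) = (r1 ^ 2) ^ 8 by ring, show r1 ^ (2 * 4) = (r1 ^ 2) ^ 4 by ring,
    r1_sq] at bT bS
  set t := ∑' n : ℕ, q1 ^ ((n + 4) ^ 2) with ht
  set s := ∑' n : ℕ, ((n : ℂ) + (4 : ℕ)) ^ 2 * q1 ^ ((n + 4) ^ 2) with hs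
  have q2 : q1 ^ 2 = ⟨-8 / 25, 6 / 25⟩ := by
    apply Complex.ext <;> simp [q1, pow_two] <;> norm_num
  have q4 : q1 ^ 4 = ⟨28 / 625, -96 / 625⟩ := by
    rw [show q1 ^ 4 = q1 ^ 2 * q1 ^ 2 by ring, q2]
    apply Complex.ext <;> simp <;> norm_num
  have q9 : q1 ^ 9 = ⟨7696 / 1953125, -30672 / 1953125⟩ := by
    rw [show q1 ^ 9 = q1 ^ 4 * q1 ^ 4 * q1 by ring, q4]
    apply Complex.ext <;> simp [q1] <;> norm_num
  have hT' : T q1 = ⟨1 / 5 + 28 / 625 + 7696 / 1953125, 3 / 5 - 96 / 625 - 30672 / 1953125⟩ + t := by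
    rw [hT]
    simp only [Finset.sum_range_succ, Finset.sum_range_zero]
    norm_num
    rw [q4, q9]
    apply Complex.ext <;> simp [q1]
    · norm_num
    · norm_num
  have hS' : S q1 = ⟨1 / 5 + 4 * (28 / 625) + 9 * (7696 / 1953125),
      3 / 5 - 4 * (96 / 625) - 9 * (30672 / 1953125)⟩ + s := by
    rw [hS]
    simp only [Finset.sum_range_succ, Finset.sum_range_zero]
    norm_num
    rw [q4, q9]
    apply Complex.ext <;> simp [q1]
    · norm_num [hs]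
    · norm_num [hs]
  have t1 := (Complex.abs_re_le_norm t).trans bT
  have t2 := (Complex.abs_im_le_norm t).trans bT
  have s1 := (Complex.abs_re_le_norm s).trans bS
  have s2 := (Complex.abs_im_le_norm s).trans bS
  norm_num at t1 t2 s1 s2
  rw [abs_le] at t1 t2 s1 s2
  have e : F q1 = 2 * ((S q1).im * (1 + 2 * (T q1).re) - (S q1).re * (2 * (T q1).im)) := by
    unfold F
    simp
    ring
  rw [e, hT', hS']
  simp only [add_re, add_im]
  have a1 : 3 / 5 - 4 * (96 / 625) - 9 * (30672 / 1953125) + s.im ≤ -(14 / 100) := by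
    linarith [s2.2]
  have a2 : 14 / 10 ≤ 1 + 2 * (1 / 5 + 28 / 625 + 7696 / 1953125 + t.re) := by
    linarith [t1.1]
  have a3 : 4 / 10 ≤ 1 / 5 + 4 * (28 / 625) + 9 * (7696 / 1953125) + s.re := by
    linarith [s1.1]
  have a4 : 85 / 100 ≤ 2 * (3 / 5 - 96 / 625 - 30672 / 1953125 + t.im) := by
    linarith [t2.1]
  nlinarith

/-- The point `(1 + 3 i) / 50`. -/
lemma F_small : 0 < F ((1 / 10 : ℝ) * q1) := by
  set q0 : ℂ := ((1 / 10 : ℝ) : ℂ) * q1 with hq0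
  have hn : ‖q0‖ ≤ r1 / 10 := by
    rw [hq0, norm_mul, Complex.norm_real, Real.norm_of_nonneg (by norm_num)]
    unfold r1
    linarith
  have hr : r1 / 10 < 1 := by linarith [r1_lt]
  have hT := split_T hn hr 1
  have hS := split_S hn hr (by
    rw [show (r1 / 10) ^ 4 = (r1 ^ 2) ^ 2 / 10000 by ring, r1_sq]; norm_num) 1
  have bT := (tail_T hn hr 2 (by norm_num)).2
  have bS := (tail_S hn hr 2 (by norm_num) (by
    rw [show (r1 / 10) ^ (2 * 2) = (r1 ^ 2) ^ 2 / 10000 by ring, r1_sq]; norm_num)).2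
  rw [show (r1 / 10) ^ (2 ^ 2) = (r1 ^ 2) ^ 2 / 10000 by ring,
    show (r1 / 10) ^ (2 * 2) = (r1 ^ 2) ^ 2 / 10000 by ring, r1_sq] at bT bS
  set t := ∑' n : ℕ, q0 ^ ((n + 2) ^ 2) with ht
  set s := ∑' n : ℕ, ((n : ℂ) + (2 : ℕ)) ^ 2 * q0 ^ ((n + 2) ^ 2) with hs
  have hT' : T q0 = q0 + t := by
    rw [hT]
    simp only [Finset.sum_range_succ, Finset.sum_range_zero]
    norm_num [ht]
  have hS' : S q0 = q0 + s := by
    rw [hS]
    simp only [Finset.sum_range_succ, Finset.sum_range_zero]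
    norm_num [hs]
  have r0 : q0.re = 1 / 50 := by
    rw [hq0]; simp [q1]; norm_num
  have i0 : q0.im = 3 / 50 := by
    rw [hq0]; simp [q1]; norm_num
  have t1 := (Complex.abs_re_le_norm t).trans bT
  have t2 := (Complex.abs_im_le_norm t).trans bT
  have s1 := (Complex.abs_re_le_norm s).trans bS
  have s2 := (Complex.abs_im_le_norm s).trans bS
  norm_num at t1 t2 s1 s2
  rw [abs_le] at t1 t2 s1 s2
  have e : F q0 = 2 * ((S q0).im * (1 + 2 * (T q0).re) - (S q0).re * (2 * (T q0).im)) := by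
    unfold F
    simp
    ring
  rw [e, hT', hS']
  simp only [add_re, add_im, r0, i0]
  have a1 : 5 / 100 ≤ 3 / 50 + s.im := by linarith [s2.1]
  have a2 : 1 ≤ 1 + 2 * (1 / 50 + t.re) := by linarith [t1.1]
  have a3 : 1 / 50 + s.re ≤ 3 / 100 := by linarith [s1.2]
  have a3' : 0 ≤ 1 / 50 + s.re := by linarith [s1.1]
  have a4 : 2 * (3 / 50 + t.im) ≤ 13 / 100 := by linarith [t2.2]
  nlinarith

/-- Continuity of `T` and `S` on the closed disc of radius `r1`. -/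
lemma cont_T : ContinuousOn T (Metric.closedBall 0 r1) := by
  unfold T
  refine continuousOn_tsum (u := fun n : ℕ => r1 ^ (1 ^ 2) * (r1 ^ (2 * 1)) ^ n)
    (fun n => (continuous_pow _).continuousOn) ?_ ?_
  · exact (summable_geometric_of_lt_one (by have := r1_nonneg; positivity)
      (pow_lt_one₀ r1_nonneg r1_lt (by norm_num))).mul_left _
  · intro n x hx
    rw [mem_closedBall_zero_iff] at hx
    rw [norm_pow]
    exact (pow_le_pow_left₀ (norm_nonneg _) hx _).trans (tail_T_term r1_nonneg r1_lt.le 1 n)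

lemma r1_four : 9 / 4 * r1 ^ 4 < 1 := by
  rw [show r1 ^ 4 = (r1 ^ 2) ^ 2 by ring, r1_sq]; norm_num

lemma summable_S : Summable fun n : ℕ => ((n : ℝ) + 1) ^ 2 * r1 ^ ((n + 1) ^ 2) := by
  rw [← summable_nat_add_iff 1]
  have hg : Summable (fun n : ℕ => ((2 : ℕ) : ℝ) ^ 2 * r1 ^ (2 ^ 2) *
      (9 / 4 * r1 ^ (2 * 2)) ^ n) :=
    (summable_geometric_of_lt_one (by have := r1_nonneg; positivity) r1_four).mul_left _
  refine Summable.of_nonneg_of_le (fun n => ?_) (fun n => ?_) hg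
  · have := r1_nonneg
    positivity
  · have := tail_S_term r1_nonneg r1_lt.le 2 le_rfl n
    refine le_trans (le_of_eq ?_) this
    push_cast
    ring_nf

lemma cont_S : ContinuousOn S (Metric.closedBall 0 r1) := by
  unfold S
  refine continuousOn_tsum (u := fun n : ℕ => ((n : ℝ) + 1) ^ 2 * r1 ^ ((n + 1) ^ 2))
    (fun n => ((continuous_pow _).const_mul _).continuousOn) summable_S ?_
  intro n x hx
  rw [mem_closedBall_zero_iff] at hx
  rw [norm_mul, norm_pow, norm_pow]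
  have e : ‖((n : ℂ) + 1)‖ = (n : ℝ) + 1 := by
    have : ((n : ℂ) + 1) = (((n : ℝ) + 1 : ℝ) : ℂ) := by push_cast; rfl
    rw [this, Complex.norm_real, Real.norm_of_nonneg (by positivity)]
  rw [e]
  exact mul_le_mul_of_nonneg_left (pow_le_pow_left₀ (norm_nonneg _) hx _) (by positivity)

lemma cont_F : ContinuousOn F (Metric.closedBall 0 r1) := by
  unfold F
  exact Complex.continuous_im.comp_continuousOn
    ((cont_S.const_mul 2).mul (Complex.continuous_conj.comp_continuousOn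
      ((cont_T.const_mul 2).const_add 1)))

/-- A non-real point `q` of the unit disc, not a zero of theta, where `S/(1+2T)` is real. -/
lemma exists_q : ∃ q : ℂ, q ≠ 0 ∧ ‖q‖ < 1 ∧ q.im ≠ 0 ∧ 1 + 2 * T q ≠ 0 ∧ F q = 0 := by
  have hball : ∀ t ∈ Set.Icc (1 / 10 : ℝ) 1, ((t : ℝ) : ℂ) * q1 ∈ Metric.closedBall (0 : ℂ) r1 := by
    intro t ht
    rw [mem_closedBall_zero_iff, norm_mul, Complex.norm_real,
      Real.norm_of_nonneg (by linarith [ht.1])]
    have := r1_nonneg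
    unfold r1 at this ⊢
    nlinarith [ht.2]
  have hc : ContinuousOn (fun t : ℝ => F ((t : ℂ) * q1)) (Set.Icc (1 / 10 : ℝ) 1) :=
    cont_F.comp ((Complex.continuous_ofReal.mul continuous_const).continuousOn) hball
  have hivt := intermediate_value_Icc' (by norm_num : (1 / 10 : ℝ) ≤ 1) hc
  have hmem : (0 : ℝ) ∈ Set.Icc (F (((1 : ℝ) : ℂ) * q1)) (F (((1 / 10 : ℝ) : ℂ) * q1)) := by
    constructor
    · have := F_q1
      simpa using this.le
    · exact F_small.le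
  obtain ⟨t, ht, htF⟩ := hivt hmem
  have htpos : 0 < t := by linarith [ht.1]
  have hre : (((t : ℝ) : ℂ) * q1).re = t / 5 := by simp [q1]; ring
  have him : (((t : ℝ) : ℂ) * q1).im = 3 * t / 5 := by simp [q1]; ring
  have hb := hball t ht
  rw [mem_closedBall_zero_iff] at hb
  refine ⟨((t : ℝ) : ℂ) * q1, ?_, lt_of_le_of_lt hb r1_lt, ?_, theta_ne hb ?_, htF⟩
  · intro h
    have := congrArg Complex.im h
    rw [him] at this
    simp at this
    linarith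
  · rw [him]; positivity
  · rw [hre]; positivity

/-- One-dimensional moment sums. -/
noncomputable def M (m : ℕ) (b : ℂ) : ℂ := ∑' k : ℤ, (k : ℂ) ^ m * Complex.exp (-(π * b * (k : ℂ) ^ 2))

lemma norm_exp_term (b : ℂ) (k : ℤ) :
    ‖Complex.exp (-(π * b * (k : ℂ) ^ 2))‖ = Real.exp (-(π * b.re * (k : ℝ) ^ 2)) := by
  rw [Complex.norm_exp]
  congr 1
  have : (-(π * b * (k : ℂ) ^ 2)) = (((-(π * (k : ℝ) ^ 2) : ℝ)) : ℂ) * b := by push_cast; ring
  rw [this, Complex.re_ofReal_mul]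
  ring

lemma summable_M (m : ℕ) {b : ℂ} (hb : 0 < b.re) :
    Summable fun k : ℤ => ‖(k : ℂ) ^ m * Complex.exp (-(π * b * (k : ℂ) ^ 2))‖ := by
  refine (summable_pow_exp m (c := π * b.re) (by positivity)).congr fun k => ?_
  rw [norm_mul, norm_pow, Complex.norm_intCast, norm_exp_term]

lemma M_odd {m : ℕ} (hm : Odd m) (b : ℂ) : M m b = 0 := by
  have h : M m b = - M m b := by
    conv_lhs => rw [M, ← (Equiv.neg ℤ).tsum_eq]
    rw [M, ← tsum_neg]
    refine tsum_congr fun k => ?_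
    simp only [Equiv.neg_apply]
    push_cast
    rw [hm.neg_pow]
    ring_nf
  have : (2 : ℂ) * M m b = 0 := by linear_combination h
  simpa using this

lemma M_conj (m : ℕ) (b : ℂ) : M m ((starRingEnd ℂ) b) = (starRingEnd ℂ) (M m b) := by
  unfold M
  rw [Complex.conj_tsum]
  refine tsum_congr fun k => ?_
  rw [map_mul, map_pow, ← Complex.exp_conj]
  simp

lemma M_eq {b : ℂ} (hb : 0 < b.re) (m : ℕ) (hm : Even m) :
    M m b = 0 ^ m + 2 * ∑' n : ℕ, ((n : ℂ) + 1) ^ m *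
      (Complex.exp (-(π * b))) ^ ((n + 1) ^ 2) := by
  have hs := (summable_M m hb).of_norm
  have e1 : ∀ n : ℕ, (((n : ℤ) + 1 : ℤ) : ℂ) ^ m *
      Complex.exp (-(π * b * (((n : ℤ) + 1 : ℤ) : ℂ) ^ 2)) =
      ((n : ℂ) + 1) ^ m * (Complex.exp (-(π * b))) ^ ((n + 1) ^ 2) := by
    intro n
    rw [← Complex.exp_nat_mul]
    push_cast
    congr 2
    ring
  have e2 : ∀ n : ℕ, ((-((n : ℤ) + 1) : ℤ) : ℂ) ^ m *
      Complex.exp (-(π * b * ((-((n : ℤ) + 1) : ℤ) : ℂ) ^ 2)) =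
      ((n : ℂ) + 1) ^ m * (Complex.exp (-(π * b))) ^ ((n + 1) ^ 2) := by
    intro n
    rw [← e1 n]
    push_cast
    rw [hm.neg_pow]
    congr 2
    ring
  have s1 : Summable fun n : ℕ => (((n : ℤ) + 1 : ℤ) : ℂ) ^ m *
      Complex.exp (-(π * b * (((n : ℤ) + 1 : ℤ) : ℂ) ^ 2)) :=
    hs.comp_injective (i := fun n : ℕ => (n : ℤ) + 1) (fun a b h => by
      simp only [add_left_inj, Nat.cast_inj] at h; exact h)
  have s2 : Summable fun n : ℕ => ((-((n : ℤ) + 1) : ℤ) : ℂ) ^ m *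
      Complex.exp (-(π * b * ((-((n : ℤ) + 1) : ℤ) : ℂ) ^ 2)) :=
    hs.comp_injective (i := fun n : ℕ => -((n : ℤ) + 1)) (fun a b h => by
      simp only [neg_inj, add_left_inj, Nat.cast_inj] at h; exact h)
  unfold M
  rw [tsum_of_add_one_of_neg_add_one (f := fun k : ℤ => (k : ℂ) ^ m *
    Complex.exp (-(π * b * (k : ℂ) ^ 2))) s1 s2]
  rw [tsum_congr e1, tsum_congr e2]
  simp only [Int.cast_zero]
  rw [show (-(π * b * (0 : ℂ) ^ 2)) = 0 by ring, Complex.exp_zero]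
  ring

/-- The parameter `b`. -/
lemma exists_b : ∃ b : ℂ, 0 < b.re ∧ M 0 b ≠ 0 ∧ (Complex.exp (-(π * b))).im ≠ 0 ∧
    M 2 b * M 0 ((starRingEnd ℂ) b) = M 2 ((starRingEnd ℂ) b) * M 0 b := by
  obtain ⟨q, hq0, hq1, him, hne, hF⟩ := exists_q
  have hpi : (π : ℂ) ≠ 0 := by exact_mod_cast Real.pi_ne_zero
  set b : ℂ := -Complex.log q / π with hb
  have hexp : Complex.exp (-(π * b)) = q := by
    rw [hb, show -((π : ℂ) * (-Complex.log q / π)) = Complex.log q by field_simp,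
      Complex.exp_log hq0]
  have hbre : 0 < b.re := by
    have : b.re = -Real.log ‖q‖ / π := by
      have e : b = (((-1 / π : ℝ)) : ℂ) * Complex.log q := by
        rw [hb]; push_cast; ring
      rw [e, Complex.re_ofReal_mul, Complex.log_re]
      ring
    rw [this]
    exact div_pos (neg_pos.2 (Real.log_neg (norm_pos_iff.2 hq0) hq1)) Real.pi_pos
  have h0 : M 0 b = 1 + 2 * T q := by
    rw [M_eq hbre 0 Even.zero, hexp]
    simp [T]
  have h2 : M 2 b = 2 * S q := by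
    rw [M_eq hbre 2 even_two, hexp]
    simp [S]
  refine ⟨b, hbre, by rw [h0]; exact hne, by rw [hexp]; exact him, ?_⟩
  rw [M_conj, M_conj, h0, h2]
  have h3 : (starRingEnd ℂ) ((2 * S q) * (starRingEnd ℂ) (1 + 2 * T q)) =
      (2 * S q) * (starRingEnd ℂ) (1 + 2 * T q) := by
    rw [Complex.conj_eq_iff_im]
    exact hF
  rw [← h3, map_mul, Complex.conj_conj]

/-! ### Higher dimensions -/

/-- The parameter `diag (b, 1, …, 1)`. -/
noncomputable def dv (k : ℕ) (b : ℂ) : Fin (k + 1) → ℂ := Fin.cons b (fun _ => 1)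

lemma dv_re {k : ℕ} {b : ℂ} (hb : 0 < b.re) (i : Fin (k + 1)) : 0 < (dv k b i).re := by
  refine Fin.cases ?_ (fun j => ?_) i
  · simpa [dv] using hb
  · simp [dv]

lemma diag_inH {k : ℕ} {b : ℂ} (hb : 0 < b.re) : InH (Matrix.diagonal (dv k b)) := by
  constructor
  · exact Matrix.isSymm_diagonal _
  · rw [Matrix.diagonal_map (by simp)]
    exact Matrix.PosDef.diagonal fun i => dv_re hb i

lemma term_diag {g : ℕ} (d : Fin g → ℂ) (n : Fin g → ℤ) :
    term 0 (Matrix.diagonal d) n = ∏ i, Complex.exp (-(π * d i * (n i : ℂ) ^ 2)) := by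
  unfold term
  rw [← Complex.exp_sum]
  congr 1
  have h : ∀ i, ∑ j, (n i : ℂ) * Matrix.diagonal d i j * (n j : ℂ) = d i * (n i : ℂ) ^ 2 := by
    intro i
    rw [Finset.sum_eq_single i]
    · rw [Matrix.diagonal_apply_eq]; ring
    · intro j _ hj
      rw [Matrix.diagonal_apply_ne _ (Ne.symm hj)]; ring
    · simp
  simp only [h, Pi.zero_apply, mul_zero, Finset.sum_const_zero, add_zero]
  rw [Finset.mul_sum, Finset.mul_sum]
  exact Finset.sum_congr rfl fun i _ => by ring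

lemma sum_diag {k : ℕ} {b : ℂ} (hb : 0 < b.re) (α : Fin (k + 1) → ℕ) :
    ∑' n : Fin (k + 1) → ℤ, (∏ i, (n i : ℂ) ^ α i) * term 0 (Matrix.diagonal (dv k b)) n =
      M (α 0) b * ∏ i : Fin k, M (α i.succ) 1 := by
  have h := (pi_prod (k + 1) (fun i l => (l : ℂ) ^ α i *
    Complex.exp (-(π * dv k b i * (l : ℂ) ^ 2))) (fun i => summable_M (α i) (dv_re hb i))).2
  have e : ∀ n : Fin (k + 1) → ℤ,
      (∏ i, (n i : ℂ) ^ α i) * term 0 (Matrix.diagonal (dv k b)) n =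
      ∏ i, ((n i : ℂ) ^ α i * Complex.exp (-(π * dv k b i * (n i : ℂ) ^ 2))) := by
    intro n
    rw [term_diag, Finset.prod_mul_distrib]
  rw [tsum_congr e, h, Fin.prod_univ_succ]
  rfl

lemma theta_diag {k : ℕ} {b : ℂ} (hb : 0 < b.re) :
    theta 0 (Matrix.diagonal (dv k b)) = M 0 b * ∏ _i : Fin k, M 0 1 := by
  have h := sum_diag (k := k) hb 0
  simp only [Pi.zero_apply, pow_zero, Finset.prod_const_one, one_mul] at h
  unfold theta
  exact h

lemma M_zero_one : M 0 1 ≠ 0 := by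
  have h : M 0 1 = ((∑' k : ℤ, Real.exp (-(π * (k : ℝ) ^ 2)) : ℝ) : ℂ) := by
    unfold M
    rw [Complex.ofReal_tsum]
    refine tsum_congr fun k => ?_
    push_cast
    rw [pow_zero, one_mul, mul_one]
  have hs : Summable fun k : ℤ => Real.exp (-(π * (k : ℝ) ^ 2)) := by
    have := summable_pow_exp 0 (c := π) Real.pi_pos
    refine this.congr fun k => ?_
    rw [pow_zero, one_mul]
  rw [h, Ne, Complex.ofReal_eq_zero]
  exact (hs.tsum_pos (fun k => (Real.exp_pos _).le) 0 (Real.exp_pos _)).ne'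

lemma theta_diag_ne {k : ℕ} {b : ℂ} (hb : 0 < b.re) (h0 : M 0 b ≠ 0) :
    theta 0 (Matrix.diagonal (dv k b)) ≠ 0 := by
  rw [theta_diag hb]
  exact mul_ne_zero h0 (Finset.prod_ne_zero_iff.2 fun i _ => M_zero_one)

lemma final (k : ℕ) : ∃ b : ℂ, 0 < b.re ∧ 0 < ((starRingEnd ℂ) b).re ∧
    theta 0 (Matrix.diagonal (dv k b)) ≠ 0 ∧
    theta 0 (Matrix.diagonal (dv k ((starRingEnd ℂ) b))) ≠ 0 ∧
    (∀ α : Fin (k + 1) → ℕ, ∑ i, α i ≤ 3 → moment 0 (Matrix.diagonal (dv k b)) α =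
      moment 0 (Matrix.diagonal (dv k ((starRingEnd ℂ) b))) α) ∧
    weight 0 (Matrix.diagonal (dv k b)) ≠
      weight 0 (Matrix.diagonal (dv k ((starRingEnd ℂ) b))) := by
  obtain ⟨b, hb, h0, him, hrel⟩ := exists_b
  have hb' : 0 < ((starRingEnd ℂ) b).re := by simpa using hb
  have h0' : M 0 ((starRingEnd ℂ) b) ≠ 0 := by
    rw [M_conj]
    simpa using h0
  have ht := theta_diag_ne (k := k) hb h0
  have ht' := theta_diag_ne (k := k) hb' h0'
  refine ⟨b, hb, hb', ht, ht', ?_, ?_⟩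
  · intro α hα
    rw [moment_eq, moment_eq, sum_diag hb, sum_diag hb', div_eq_div_iff ht ht',
      theta_diag hb, theta_diag hb']
    have hα0 : α 0 ≤ 3 := (Finset.single_le_sum (fun i _ => Nat.zero_le (α i))
      (Finset.mem_univ 0)).trans hα
    have key : M (α 0) b * M 0 ((starRingEnd ℂ) b) = M (α 0) ((starRingEnd ℂ) b) * M 0 b := by
      rcases Nat.even_or_odd (α 0) with he | ho
      · obtain ⟨r, hr⟩ := he
        have : α 0 = 0 ∨ α 0 = 2 := by omega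
        rcases this with h | h
        · rw [h]; ring
        · rw [h]; exact hrel
      · rw [M_odd ho, M_odd ho]; ring
    linear_combination ((∏ i : Fin k, M (α i.succ) 1) * ∏ _i : Fin k, M 0 1) * key
  · intro h
    -- the quotient of the weights at `e_0` and `0` is `exp (-π b)`
    have hq : ∀ c : ℂ, theta 0 (Matrix.diagonal (dv k c)) ≠ 0 →
        weight 0 (Matrix.diagonal (dv k c)) (Pi.single 0 1) /
          weight 0 (Matrix.diagonal (dv k c)) 0 = Complex.exp (-(π * c)) := by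
      intro c hc
      unfold weight
      have e1 : term 0 (Matrix.diagonal (dv k c)) 0 = 1 := by
        rw [term_diag]; simp
      have e2 : term 0 (Matrix.diagonal (dv k c)) (Pi.single 0 1) =
          Complex.exp (-(π * c)) := by
        rw [term_diag, Fin.prod_univ_succ]
        simp [dv]
      rw [e1, e2]
      field_simp
    have h1 := hq b ht
    have h2 := hq _ ht'
    rw [h] at h1
    have h3 : Complex.exp (-(π * b)) = (starRingEnd ℂ) (Complex.exp (-(π * b))) := by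
      rw [← Complex.exp_conj]
      refine (h1.symm.trans h2).trans ?_
      congr 1
      simp
    exact him (Complex.conj_eq_iff_im.1 h3.symm)

end Q49.DGOne
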