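import Pool.Agent.W525.Cliff
import Pool.Agent.W518.PC.Defs

/-!
# Line bundles of small degree on curves of large genus are not very ample

If `d (d - 1) < g`, a line bundle `L` of degree `d` with sections on a curve of genus `g` has two
points `P, Q` with `h⁰(L - P - Q) ≥ h⁰(L) - 1`.
-/

open scoped WithZero
open WithZero

namespace Q49.NotAmple

open Pool.Agent.Helper395.CS hiding genus
open Pool.Agent.Helper395.BC
open Pool.Agent.W525.BA

variable {K : Type} [Field K] [Algebra ℂ K]

/-- the multiplicity of a line bundle at a point -/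
noncomputable def mu (L : LineBundle K) (v : Point K) : ℤ := -v.ord (L.frame v : K)

lemma mem_stalk_iff {L : LineBundle K} {v : Point K} {f : K} (hf : f ≠ 0) :
    f ∈ L.stalk v ↔ -mu L v ≤ v.ord f := by
  change v.val f ≤ v.val (L.frame v : K) ↔ _
  rw [v.val_le_val_iff hf (L.frame v).ne_zero, mu, neg_neg]

lemma mem_H0_iff {L : LineBundle K} {f : K} (hf : f ≠ 0) :
    f ∈ H0 L ↔ ∀ v, -mu L v ≤ v.ord f := by
  rw [mem_H0]
  exact forall_congr' fun v => mem_stalk_iff hf

lemma mu_lmul (L M : LineBundle K) (v : Point K) : mu (lmul L M) v = mu L v + mu M v := by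
  change -v.ord ((L.frame v * M.frame v : Kˣ) : K) = _
  rw [Units.val_mul, v.ord_mul (L.frame v).ne_zero (M.frame v).ne_zero, mu, mu]
  ring

lemma mu_linv (L : LineBundle K) (v : Point K) : mu (linv L) v = -mu L v := by
  change -v.ord (((L.frame v)⁻¹ : Kˣ) : K) = _
  rw [Units.val_inv_eq_inv_val, v.ord_inv, mu]

lemma mu_lpt_self (v : Point K) : mu (lpt v) v = 1 := by
  rw [mu, lpt_frame_self, v.ord_inv, ord_unif, neg_neg]

lemma mu_lpt_ne {v w : Point K} (h : w ≠ v) : mu (lpt v) w = 0 := by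
  rw [mu, lpt_frame_ne h, Units.val_one, w.ord_one, neg_zero]

lemma mu_lsub_self (L : LineBundle K) (v : Point K) : mu (lsub L v) v = mu L v - 1 := by
  rw [lsub, mu_lmul, mu_linv, mu_lpt_self]; ring

lemma mu_lsub_ne (L : LineBundle K) {v w : Point K} (h : w ≠ v) :
    mu (lsub L v) w = mu L w := by
  rw [lsub, mu_lmul, mu_linv, mu_lpt_ne h]; ring

lemma mu_lprin (hK : IsCurve K) (f : Kˣ) (v : Point K) : mu (lprin hK f) v = -v.ord (f : K) := rfl

lemma degree_eq (L : LineBundle K) : L.degree = ∑ᶠ v : Point K, mu L v := rfl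

/-- powers of line bundles -/
noncomputable def pw (L : LineBundle K) (n : ℕ) : LineBundle K := Pool.Agent.W518.PC.lpow L n

lemma mu_pw (L : LineBundle K) (n : ℕ) (v : Point K) : mu (pw L n) v = n * mu L v := by
  change -v.ord (((L.frame v) ^ (n : ℤ) : Kˣ) : K) = _
  rw [zpow_natCast, Units.val_pow_eq_pow_val, v.ord_pow, mu]
  ring

lemma pw_degree (L : LineBundle K) (n : ℕ) : (pw L n).degree = n * L.degree := by
  rw [degree_eq, degree_eq, mul_finsum]
  exact finsum_congr fun v => mu_pw L n v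

lemma degree_le_of_mu (hK : IsCurve K) {L M : LineBundle K} (h : ∀ v, mu L v ≤ mu M v) :
    L.degree ≤ M.degree := by
  refine ldegree_le hK fun v s hs => ?_
  rcases eq_or_ne s 0 with rfl | h0
  · change v.val 0 ≤ _
    rw [map_zero]
    exact zero_le
  · rw [mem_stalk_iff h0] at hs ⊢
    have := h v
    omega

lemma degree_lt_of_mu (hK : IsCurve K) {L M : LineBundle K} (h : ∀ v, mu L v ≤ mu M v)
    {v : Point K} (hv : mu L v < mu M v) : L.degree < M.degree := by
  have h1 : (lmul L (lpt v)).degree ≤ M.degree := by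
    refine degree_le_of_mu hK fun w => ?_
    rw [mu_lmul]
    rcases eq_or_ne w v with rfl | hw
    · rw [mu_lpt_self]; omega
    · rw [mu_lpt_ne hw]
      have := h w
      omega
  rw [lmul_degree, lpt_degree] at h1
  omega

lemma H0_le_of_mu {L M : LineBundle K} (h : ∀ v, mu L v ≤ mu M v) : H0 L ≤ H0 M := by
  intro f hf
  rcases eq_or_ne f 0 with rfl | h0
  · exact Submodule.zero_mem _
  · rw [mem_H0_iff h0] at hf ⊢
    intro v
    have := hf v
    have := h v
    omega

lemma ord_prod (v : Point K) {α : Type} (s : Finset α) (f : α → K) (hf : ∀ a ∈ s, f a ≠ 0) :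
    v.ord (∏ a ∈ s, f a) = ∑ a ∈ s, v.ord (f a) := by
  classical
  induction s using Finset.induction_on with
  | empty => simp [v.ord_one]
  | insert a s ha ih =>
    rw [Finset.prod_insert ha, Finset.sum_insert ha, v.ord_mul (hf a (Finset.mem_insert_self _ _)),
      ih fun b hb => hf b (Finset.mem_insert_of_mem hb)]
    rw [Finset.prod_ne_zero_iff]
    exact fun b hb => hf b (Finset.mem_insert_of_mem hb)

/-- The properties of the sections of a very ample line bundle that are used. -/
structure Amp (L : LineBundle K) : Prop where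
  one : ∀ v, 0 ≤ mu L v
  gen : ∀ P : Point K, ∃ f ∈ H0 L, f ≠ 0 ∧ P.ord f = -mu L P
  sep : ∀ P Q : Point K, Q ≠ P → ∃ f ∈ H0 L, f ≠ 0 ∧ P.ord f = -mu L P ∧ -mu L Q + 1 ≤ Q.ord f
  tan : ∀ P : Point K, ∃ f ∈ H0 L, f ≠ 0 ∧ P.ord f = -mu L P + 1

/-- a section of a power of `L` with a prescribed order at one point -/
lemma exists_section {L : LineBundle K} (hL : Amp L) {n : ℕ}
    (hn : L.degree ≤ n) (P : Point K) {k : ℕ} (hk : (k : ℤ) < mu L P) :
    ∃ f : K, f ≠ 0 ∧ P.ord f = -(n * mu L P) + k ∧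
      ∀ Q, Q ≠ P → -((n - 1 : ℤ) * mu L Q) ≤ Q.ord f := by
  classical
  obtain ⟨u, hu, hu0, huP⟩ := hL.gen P
  obtain ⟨t, ht, ht0, htP⟩ := hL.tan P
  choose! φ hφ hφ0 hφP hφQ using hL.sep P
  have hfin : {v : Point K | mu L v ≠ 0}.Finite := by
    refine L.finite.subset fun v hv h => hv ?_
    change -v.ord (L.frame v : K) = 0
    rw [(v.val_eq_one_iff (L.frame v).ne_zero).1 h, neg_zero]
  set S := hfin.toFinset.erase P with hS
  have hSne : ∀ Q ∈ S, Q ≠ P := fun Q hQ => (Finset.mem_erase.1 hQ).1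
  -- the degree
  have hdeg : L.degree = mu L P + ∑ Q ∈ S, mu L Q := by
    rw [degree_eq, finsum_eq_sum_of_support_subset (s := hfin.toFinset)]
    · by_cases hP : P ∈ hfin.toFinset
      · rw [hS, Finset.add_sum_erase _ _ hP]
      · have h0 : mu L P = 0 := by
          by_contra h
          exact hP (by rw [Set.Finite.mem_toFinset]; exact h)
        rw [hS, Finset.erase_eq_of_notMem hP, h0, zero_add]
    · intro v hv
      rw [Finset.mem_coe, Set.Finite.mem_toFinset]
      exact hv
  set N : ℕ := ∑ Q ∈ S, (mu L Q).toNat with hN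
  have hNZ : (N : ℤ) = ∑ Q ∈ S, mu L Q := by
    rw [hN]
    push_cast
    exact Finset.sum_congr rfl fun Q _ => by have := hL.one Q; omega
  have hle : N + k ≤ n := by
    have : (N : ℤ) + k ≤ n := by rw [hNZ]; omega
    exact_mod_cast this
  set Φ : K := ∏ Q ∈ S, φ Q ^ (mu L Q).toNat with hΦ
  have hφS0 : ∀ Q ∈ S, φ Q ^ (mu L Q).toNat ≠ 0 := fun Q hQ => pow_ne_zero _ (hφ0 Q (hSne Q hQ))
  have hΦ0 : Φ ≠ 0 := Finset.prod_ne_zero_iff.2 hφS0
  have hord : ∀ v : Point K, v.ord Φ = ∑ Q ∈ S, mu L Q * v.ord (φ Q) := by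
    intro v
    rw [hΦ, ord_prod v S _ hφS0]
    refine Finset.sum_congr rfl fun Q _ => ?_
    rw [v.ord_pow]
    have := hL.one Q
    congr 1
    omega
  have hut0 : t ^ k * u ^ (n - N - k) ≠ 0 := mul_ne_zero (pow_ne_zero _ ht0) (pow_ne_zero _ hu0)
  refine ⟨Φ * (t ^ k * u ^ (n - N - k)), mul_ne_zero hΦ0 hut0, ?_, ?_⟩
  · rw [P.ord_mul hΦ0 hut0, P.ord_mul (pow_ne_zero _ ht0) (pow_ne_zero _ hu0), P.ord_pow,
      P.ord_pow, hord, htP, huP]
    have h1 : ∑ Q ∈ S, mu L Q * P.ord (φ Q) = -(N * mu L P) := by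
      rw [hNZ, Finset.sum_mul, ← Finset.sum_neg_distrib]
      refine Finset.sum_congr rfl fun Q hQ => ?_
      rw [hφP Q (hSne Q hQ)]
      ring
    rw [h1]
    have h2 : ((n - N - k : ℕ) : ℤ) = n - N - k := by omega
    rw [h2]
    ring
  · intro R hR
    rw [R.ord_mul hΦ0 hut0, R.ord_mul (pow_ne_zero _ ht0) (pow_ne_zero _ hu0), R.ord_pow,
      R.ord_pow, hord]
    have ht1 := (mem_H0_iff ht0).1 ht R
    have hu1 := (mem_H0_iff hu0).1 hu R
    have h2 : ((n - N - k : ℕ) : ℤ) = n - N - k := by omega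
    have hk0 : (0 : ℤ) ≤ k := Int.natCast_nonneg k
    have hm0 : (0 : ℤ) ≤ (n : ℤ) - N - k := by omega
    have h3 : -(k * mu L R) ≤ k * R.ord t := by nlinarith
    have h4 : -(((n : ℤ) - N - k) * mu L R) ≤ ((n : ℤ) - N - k) * R.ord u := by nlinarith
    have h5 : -(N * mu L R) + mu L R ≤ ∑ Q ∈ S, mu L Q * R.ord (φ Q) := by
      have hpt : ∀ Q ∈ S, -(mu L Q * mu L R) ≤ mu L Q * R.ord (φ Q) := by
        intro Q hQ
        have h6 := (mem_H0_iff (hφ0 Q (hSne Q hQ))).1 (hφ Q (hSne Q hQ)) R
        have h7 := hL.one Q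
        nlinarith
      by_cases hRS : R ∈ S
      · rw [hNZ, ← Finset.add_sum_erase _ (fun Q => mu L Q) hRS,
          ← Finset.add_sum_erase _ (fun Q => mu L Q * R.ord (φ Q)) hRS]
        have h8 : -((∑ Q ∈ S.erase R, mu L Q) * mu L R) ≤
            ∑ Q ∈ S.erase R, mu L Q * R.ord (φ Q) := by
          rw [Finset.sum_mul, ← Finset.sum_neg_distrib]
          exact Finset.sum_le_sum fun Q hQ => hpt Q (Finset.mem_of_mem_erase hQ)
        have h9 := hφQ R hR
        have h10 := hL.one R
        have h11 : mu L R * (-mu L R + 1) ≤ mu L R * R.ord (φ R) :=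
          mul_le_mul_of_nonneg_left h9 h10
        linarith
      · have h0 : mu L R = 0 := by
          by_contra h
          exact hRS (Finset.mem_erase.2 ⟨hR, by rw [Set.Finite.mem_toFinset]; exact h⟩)
        rw [h0, mul_zero, neg_zero, zero_add]
        refine Finset.sum_nonneg fun Q hQ => ?_
        have := hpt Q hQ
        rw [h0, mul_zero, neg_zero] at this
        exact this
    rw [h2]
    linarith

/-- the numbers of sections of the powers of `L` jump by the degree -/
lemma chain (hK : IsCurve K) (hg : genus K ≠ 0) {L : LineBundle K} (hL : Amp L) {n : ℕ}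
    (hn : L.degree ≤ n) : ∀ (k : ℕ) (D : LineBundle K),
    (∀ v, (n - 1 : ℤ) * mu L v ≤ mu D v) → (∀ v, mu D v ≤ n * mu L v) →
    (pw L n).degree = D.degree + k →
    Module.finrank ℂ (H0 D) + k ≤ Module.finrank ℂ (H0 (pw L n)) := by
  intro k
  induction k with
  | zero =>
    intro D h1 h2 h3
    have := H0_finite hK hg (pw L n)
    rw [add_zero]
    exact Submodule.finrank_mono (H0_le_of_mu fun v => by rw [mu_pw]; exact h2 v)
  | succ k ih =>
    intro D h1 h2 h3
    obtain ⟨P, hP⟩ : ∃ P, mu D P < n * mu L P := by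
      by_contra hcon
      push Not at hcon
      have h4 : (pw L n).degree ≤ D.degree := degree_le_of_mu hK fun v => by
        rw [mu_pw]; exact hcon v
      push_cast at h3
      omega
    have hfin := H0_finite hK hg (lmul D (lpt P))
    have h5 := ih (lmul D (lpt P)) (fun v => by
        rw [mu_lmul]
        rcases eq_or_ne v P with rfl | hv
        · rw [mu_lpt_self]; have := h1 v; omega
        · rw [mu_lpt_ne hv]; have := h1 v; omega)
      (fun v => by
        rw [mu_lmul]
        rcases eq_or_ne v P with rfl | hv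
        · rw [mu_lpt_self]; omega
        · rw [mu_lpt_ne hv]; have := h2 v; omega)
      (by rw [lmul_degree, lpt_degree, h3]; push_cast; ring)
    have hle : H0 D ≤ H0 (lmul D (lpt P)) := H0_mono (le_lmul_lpt D P)
    -- the new section
    obtain ⟨j, hj⟩ : ∃ j : ℕ, (j : ℤ) = n * mu L P - (mu D P + 1) :=
      ⟨(n * mu L P - (mu D P + 1)).toNat, by omega⟩
    have hjlt : (j : ℤ) < mu L P := by
      have := h1 P
      linarith
    obtain ⟨f, hf0, hfP, hfQ⟩ := exists_section hL hn P hjlt
    have hfmem : f ∈ H0 (lmul D (lpt P)) := by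
      rw [mem_H0_iff hf0]
      intro v
      rw [mu_lmul]
      rcases eq_or_ne v P with rfl | hv
      · rw [mu_lpt_self, hfP, hj]
        linarith
      · rw [mu_lpt_ne hv]
        have h6 := hfQ v hv
        have h7 := h1 v
        linarith
    have hfnot : f ∉ H0 D := by
      rw [mem_H0_iff hf0]
      intro h
      have h6 := h P
      rw [hfP, hj] at h6
      linarith
    have hlt : H0 D < H0 (lmul D (lpt P)) := lt_of_le_of_ne hle fun h => hfnot (h ▸ hfmem)
    have := Submodule.finrank_lt_finrank_of_lt hlt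
    omega

/-- The genus of a curve with a very ample line bundle of degree `d` is at most `d (d - 1)`. -/
theorem genus_le (hK : IsCurve K) (hg : genus K ≠ 0) {L : LineBundle K} (hL : Amp L) {d : ℕ}
    (hd : L.degree = d) (hd1 : 1 ≤ d) : genus K ≤ d * (d - 1) := by
  have hone : ∀ n : ℕ, (1 : K) ∈ H0 (pw L n) := by
    intro n
    rw [mem_H0_iff one_ne_zero]
    intro v
    rw [v.ord_one, mu_pw]
    have := hL.one v
    have := mul_nonneg (Int.natCast_nonneg n) this
    omega
  have hpos : ∀ n : ℕ, 1 ≤ Module.finrank ℂ (H0 (pw L n)) := by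
    intro n
    have := H0_finite hK hg (pw L n)
    rw [Nat.one_le_iff_ne_zero, Ne, Submodule.finrank_eq_zero]
    intro h
    have h1 := hone n
    rw [h, Submodule.mem_bot] at h1
    exact one_ne_zero h1
  have hstep : ∀ n : ℕ, d ≤ n + 1 → Module.finrank ℂ (H0 (pw L n)) + d ≤
      Module.finrank ℂ (H0 (pw L (n + 1))) := by
    intro n hn
    refine chain hK hg hL (n := n + 1) (by rw [hd]; exact_mod_cast hn) d (pw L n) ?_ ?_ ?_
    · intro v
      rw [mu_pw]
      push_cast
      apply le_of_eq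
      ring
    · intro v
      rw [mu_pw]
      have := hL.one v
      push_cast
      nlinarith
    · rw [pw_degree, pw_degree, hd]
      push_cast
      ring
  have hsum : ∀ j : ℕ, 1 + j * d ≤ Module.finrank ℂ (H0 (pw L (d - 1 + j))) := by
    intro j
    induction j with
    | zero => simpa using hpos (d - 1)
    | succ j ih =>
      have h1 := hstep (d - 1 + j) (by omega)
      have h2 : d - 1 + (j + 1) = d - 1 + j + 1 := by ring
      rw [h2, Nat.succ_mul]
      omega
  -- a large power
  set N := 2 * genus K with hN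
  have h1 := hsum N
  have hfin := H0_finite hK hg (pw L (d - 1 + N))
  have hdegN : (pw L (d - 1 + N)).degree = ((d - 1 + N : ℕ) : ℤ) * d := by rw [pw_degree, hd]
  have h2 := (rrL hK hg (pw L (d - 1 + N))).2
  have h3 : (lmul (can hK hg) (linv (pw L (d - 1 + N)))).degree < 0 := by
    rw [lmul_degree, linv_degree, can_degree, hdegN]
    have h4 : (N : ℤ) ≤ ((d - 1 + N : ℕ) : ℤ) * d := by
      have : N ≤ (d - 1 + N) * d := by nlinarith [Nat.zero_le (d - 1)]
      exact_mod_cast this
    omega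
  rw [H0_eq_bot hK h3, finrank_bot, hdegN] at h2
  obtain ⟨e, rfl⟩ : ∃ e, d = e + 1 := ⟨d - 1, by omega⟩
  rw [Nat.add_sub_cancel] at *
  push_cast at h2
  zify at h1 ⊢
  nlinarith

end Q49.NotAmple
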