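import Pool.Agent.Q49.SepPair

/-! Plane curves, orbits, and the field of separated multiples. -/

namespace Q49.SepOrb

open Polynomial Polynomial.Bivariate

variable {K : Type*} [Field K]

/-- The image in `K(x,y)` of the rational function `f ∈ K(x)`. -/
noncomputable def inX (f : RatFunc K) : FractionRing K[X][Y] :=
  algebraMap K[X][Y] _ (C f.num) / algebraMap K[X][Y] _ (C f.denom)

/-- The image in `K(x,y)` of the rational function `g ∈ K(y)`. -/
noncomputable def inY (g : RatFunc K) : FractionRing K[X][Y] :=
  algebraMap K[X][Y] _ (g.num.map C) / algebraMap K[X][Y] _ (g.denom.map C)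

/-- The set `⟨p⟩` of the `q ∈ K(x,y)` whose reduced denominator is not divisible by `p` and whose
reduced numerator is a multiple of `p`. -/
def multiples (p : K[X][Y]) : Set (FractionRing K[X][Y]) :=
  {q | ¬ p ∣ (IsFractionRing.den K[X][Y] q : K[X][Y]) ∧ p ∣ IsFractionRing.num K[X][Y] q}

/-- The field of separated multiples `F(p)`, as a set of pairs. -/
def sepField (p : K[X][Y]) : Set (RatFunc K × RatFunc K) :=
  {fg | inX fg.1 - inY fg.2 ∈ multiples p}

/-- `F(p)` consists only of constant pairs. -/
def SepTrivial (p : K[X][Y]) : Prop :=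
  ∀ fg ∈ sepField p, ∃ c : K, fg = (RatFunc.C c, RatFunc.C c)

/-- Homogeneous coordinates of the points of `ℙ¹(K) = K ∪ {∞}`: `∞ = [0 : 1]`, `a = [1 : a]`. -/
def coord : Option K → K × K
  | none => (0, 1)
  | some a => (1, a)

/-- The value at `([P.1 : P.2], [Q.1 : Q.2])` of the bihomogenization of `p`. -/
noncomputable def bihom (p : K[X][Y]) (P Q : K × K) : K :=
  ∑ j ∈ Finset.range (p.natDegree + 1), ∑ i ∈ Finset.range ((swap p).natDegree + 1),
    (p.coeff j).coeff i * (P.2 ^ i * P.1 ^ ((swap p).natDegree - i)) *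
      (Q.2 ^ j * Q.1 ^ (p.natDegree - j))

/-- The curve `C` in `ℙ¹(K) × ℙ¹(K)`. -/
def curve (p : K[X][Y]) : Set (Option K × Option K) :=
  {PQ | bihom p (coord PQ.1) (coord PQ.2) = 0}

/-- Two different points of `C` are joined if they have the same first or the same second
coordinate. -/
def orbitGraph (p : K[X][Y]) : SimpleGraph (curve p) where
  Adj P Q := P ≠ Q ∧ (P.1.1 = Q.1.1 ∨ P.1.2 = Q.1.2)
  symm := ⟨fun _ _ h => ⟨h.1.symm, h.2.imp Eq.symm Eq.symm⟩⟩
  loopless := ⟨fun _ h => h.1 rfl⟩

/-! ### Coefficients of `swap p` -/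

lemma coeff_swap (p : K[X][Y]) (i j : ℕ) : ((swap p).coeff i).coeff j = (p.coeff j).coeff i := by
  induction p using Polynomial.induction_on' with
  | add p q hp hq => simp only [map_add, coeff_add, hp, hq]
  | monomial n a =>
    induction a using Polynomial.induction_on' with
    | add p q hp hq => simp only [map_add, coeff_add, hp, hq]
    | monomial m r =>
      rw [swap_monomial_monomial, coeff_monomial, coeff_monomial]
      by_cases h1 : m = i <;> by_cases h2 : n = j <;> simp [h1, h2, coeff_monomial]

lemma coeff_eq_zero_of_lt (p : K[X][Y]) {i : ℕ} (j : ℕ) (hi : (swap p).natDegree < i) :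
    (p.coeff j).coeff i = 0 := by
  rw [← coeff_swap, coeff_eq_zero_of_natDegree_lt hi, coeff_zero]

lemma natDegree_coeff_le (p : K[X][Y]) (j : ℕ) : (p.coeff j).natDegree ≤ (swap p).natDegree := by
  rw [natDegree_le_iff_coeff_eq_zero]
  intro i hi
  exact coeff_eq_zero_of_lt p j hi

lemma bihom_swap (p : K[X][Y]) (P Q : K × K) : bihom (swap p) Q P = bihom p P Q := by
  unfold bihom
  rw [swap_swap_apply, Finset.sum_comm]
  refine Finset.sum_congr rfl fun j _ => Finset.sum_congr rfl fun i _ => ?_
  rw [coeff_swap]
  ring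

lemma mem_curve_swap (p : K[X][Y]) (P Q : Option K) : (Q, P) ∈ curve (swap p) ↔ (P, Q) ∈ curve p := by
  simp only [curve, Set.mem_ofPred_eq, bihom_swap]

lemma eval_coeff_sum (p : K[X][Y]) (j : ℕ) (a : K) :
    ∑ i ∈ Finset.range ((swap p).natDegree + 1), (p.coeff j).coeff i * a ^ i =
      (p.coeff j).eval a := by
  rw [eval_eq_sum_range' (Nat.lt_succ_of_le (natDegree_coeff_le p j))]

lemma mem_curve_some (p : K[X][Y]) (a b : K) :
    ((some a, some b) : Option K × Option K) ∈ curve p ↔ p.evalEval a b = 0 := by
  simp only [curve, Set.mem_ofPred_eq, coord]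
  have : bihom p (1, a) (1, b) = p.evalEval a b := by
    unfold bihom
    simp only [one_pow, mul_one, ← Finset.sum_mul, eval_coeff_sum]
    rw [← map_evalRingHom_eval, eval_eq_sum_range' (n := p.natDegree + 1)
      (Nat.lt_succ_of_le natDegree_map_le)]
    exact Finset.sum_congr rfl fun j _ => by rw [coeff_map, coe_evalRingHom]
  rw [this]

lemma mem_curve_none_right (p : K[X][Y]) (a : K) :
    ((some a, none) : Option K × Option K) ∈ curve p ↔ p.leadingCoeff.eval a = 0 := by
  simp only [curve, Set.mem_ofPred_eq, coord]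
  have : bihom p (1, a) (0, 1) = p.leadingCoeff.eval a := by
    unfold bihom
    rw [Finset.sum_eq_single p.natDegree]
    · simp only [one_pow, mul_one, Nat.sub_self, pow_zero, eval_coeff_sum]
      rfl
    · intro j hj hne
      rw [Finset.mem_range] at hj
      have : p.natDegree - j ≠ 0 := by omega
      simp [this]
    · intro h
      simp at h
  rw [this]

lemma mem_curve_none_left (p : K[X][Y]) (b : K) :
    ((none, some b) : Option K × Option K) ∈ curve p ↔ (swap p).leadingCoeff.eval b = 0 := by
  rw [← mem_curve_swap, mem_curve_none_right]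

/-! ### Finiteness of the fibres and of the bad values -/

/-- `p` is irreducible and lies neither in `K[x]` nor in `K[y]`. -/
structure Adm (p : K[X][Y]) : Prop where
  irr : Irreducible p
  notX : ∀ r : K[X], p ≠ C r
  notY : ∀ r : K[X], p ≠ r.map C

lemma Adm.swap {p : K[X][Y]} (h : Adm p) : Adm (swap p) where
  irr := (MulEquiv.irreducible_iff (Polynomial.Bivariate.swap (R := K))).2 h.irr
  notX := fun r hr => h.notY r (by rw [← swap_swap_apply p, hr, swap_C])
  notY := fun r hr => h.notX r (by rw [← swap_swap_apply p, hr, swap_map_C])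

lemma Adm.natDegree_pos {p : K[X][Y]} (h : Adm p) : 0 < p.natDegree := by
  rw [Nat.pos_iff_ne_zero]
  intro h0
  exact h.notX _ (eq_C_of_natDegree_eq_zero h0)

lemma Adm.map_ne_zero {p : K[X][Y]} (h : Adm p) (a : K) : p.map (evalRingHom a) ≠ 0 := by
  intro h0
  obtain ⟨w, hw⟩ := Q49.SepVal.sub_dvd p a
  rw [h0, Polynomial.map_zero, zero_add] at hw
  rcases h.irr.isUnit_or_isUnit hw with h1 | h1
  · have h2 : IsUnit (X - C a) := isUnit_C.1 h1
    exact not_isUnit_X_sub_C a h2
  · obtain ⟨u, hu⟩ := (natDegree_eq_zero.1 (natDegree_eq_zero_of_isUnit h1))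
    rw [← hu, ← C_mul] at hw
    exact h.notX _ hw

lemma Adm.fibre_finite {p : K[X][Y]} (h : Adm p) (P : Option K) :
    {Q : Option K | (P, Q) ∈ curve p}.Finite := by
  have hsub : {Q : Option K | (P, Q) ∈ curve p} ⊆
      insert none (some '' {b : K | (P, some b) ∈ curve p}) := by
    intro Q hQ
    rcases Q with _ | b
    · exact Set.mem_insert _ _
    · exact Set.mem_insert_of_mem _ ⟨b, hQ, rfl⟩
  refine Set.Finite.subset (Set.Finite.insert _ (Set.Finite.image _ ?_)) hsub
  rcases P with _ | a
  · have : {b : K | ((none, some b) : Option K × Option K) ∈ curve p} =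
        {b : K | (Polynomial.Bivariate.swap p).leadingCoeff.IsRoot b} := by
      ext b
      exact mem_curve_none_left p b
    rw [this]
    exact finite_setOfPred_isRoot (leadingCoeff_ne_zero.2 h.swap.irr.ne_zero)
  · have : {b : K | ((some a, some b) : Option K × Option K) ∈ curve p} =
        {b : K | (p.map (evalRingHom a)).IsRoot b} := by
      ext b
      rw [Set.mem_ofPred_eq, mem_curve_some, Set.mem_ofPred_eq, IsRoot.def, map_evalRingHom_eval]
    rw [this]
    exact finite_setOfPred_isRoot (h.map_ne_zero a)

/-- The bad values of the first coordinate. -/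
def bad (p : K[X][Y]) : Set K :=
  {a | p.leadingCoeff.eval a = 0 ∨ ¬ (p.map (evalRingHom a)).Separable}

lemma Adm.bad_finite [CharZero K] {p : K[X][Y]} (h : Adm p) : (bad p).Finite := by
  have hprim : p.IsPrimitive := h.irr.isPrimitive h.natDegree_pos.ne'
  have hirr : Irreducible (p.map (algebraMap K[X] (FractionRing K[X]))) :=
    (hprim.irreducible_iff_irreducible_map_fraction_map (K := FractionRing K[X])).1 h.irr
  have hinj := FaithfulSMul.algebraMap_injective K[X] (FractionRing K[X])
  have : CharZero (FractionRing K[X]) := charZero_of_injective_algebraMap hinj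
  obtain ⟨u, v, huv⟩ := hirr.separable
  obtain ⟨b, hb0, hb⟩ := IsLocalization.integerNormalization_spec (nonZeroDivisors K[X]) u
  obtain ⟨c, hc0, hc⟩ := IsLocalization.integerNormalization_spec (nonZeroDivisors K[X]) v
  set U := IsLocalization.integerNormalization (nonZeroDivisors K[X]) u
  set V := IsLocalization.integerNormalization (nonZeroDivisors K[X]) v
  have hb' : U.map (algebraMap K[X] (FractionRing K[X])) =
      C (algebraMap K[X] (FractionRing K[X]) b) * u := by
    rw [hb, ← smul_eq_C_mul, algebraMap_smul]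
  have hc' : V.map (algebraMap K[X] (FractionRing K[X])) =
      C (algebraMap K[X] (FractionRing K[X]) c) * v := by
    rw [hc, ← smul_eq_C_mul, algebraMap_smul]
  have key : C c * U * p + C b * V * derivative p = C (b * c) := by
    apply map_injective _ hinj
    rw [Polynomial.map_add, Polynomial.map_mul, Polynomial.map_mul, Polynomial.map_mul,
      Polynomial.map_mul, map_C, map_C, map_C, hb', hc', ← derivative_map, map_mul, C_mul]
    linear_combination (C (algebraMap K[X] (FractionRing K[X]) b) *
      C (algebraMap K[X] (FractionRing K[X]) c)) * huv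
  have hsub : bad p ⊆ {a | p.leadingCoeff.IsRoot a} ∪ {a | (b * c).IsRoot a} := by
    intro a ha
    rcases ha with ha | ha
    · exact Or.inl ha
    · right
      by_contra hne
      apply ha
      rw [Set.mem_ofPred_eq, IsRoot.def] at hne
      have h1 := congrArg (Polynomial.map (evalRingHom a)) key
      rw [Polynomial.map_add, Polynomial.map_mul _ (q := p),
        Polynomial.map_mul _ (q := derivative p), map_C, ← derivative_map, coe_evalRingHom] at h1
      refine ⟨C (((b * c).eval a)⁻¹) * (C c * U).map (evalRingHom a),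
        C (((b * c).eval a)⁻¹) * (C b * V).map (evalRingHom a), ?_⟩
      rw [mul_assoc, mul_assoc, ← mul_add, h1, ← C_mul, inv_mul_cancel₀ hne, C_1]
  refine Set.Finite.subset (Set.Finite.union ?_ ?_) hsub
  · exact finite_setOfPred_isRoot (leadingCoeff_ne_zero.2 h.irr.ne_zero)
  · exact finite_setOfPred_isRoot (mul_ne_zero (nonZeroDivisors.ne_zero hb0)
      (nonZeroDivisors.ne_zero hc0))

end Q49.SepOrb
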