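import Pool.Agent.Q49.SepDef

/-! Infinitely many finite orbits force a separated multiple. -/

namespace Q49.SepOrb

open Polynomial Polynomial.Bivariate Q49.SepVal

universe u

variable {K : Type u} [Field K]

/-- The good points of the curve. -/
def GoodPt (p : K[X][Y]) (P : Option K × Option K) : Prop :=
  ∃ a b : K, P = (some a, some b) ∧ a ∉ bad p ∧ b ∉ bad (swap p)

lemma badPts_finite [CharZero K] {p : K[X][Y]} (h : Adm p) :
    {P : curve p | ¬ GoodPt p P.1}.Finite := by
  have h1 : (curve p ∩ {P | ¬ GoodPt p P}).Finite := by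
    have hsub : curve p ∩ {P | ¬ GoodPt p P} ⊆
        (⋃ P ∈ (insert none (some '' bad p) : Set (Option K)),
          (fun Q => (P, Q)) '' {Q : Option K | (P, Q) ∈ curve p}) ∪
        (⋃ Q ∈ (insert none (some '' bad (swap p)) : Set (Option K)),
          (fun P => (P, Q)) '' {P : Option K | (Q, P) ∈ curve (swap p)}) := by
      rintro ⟨P, Q⟩ ⟨hC, hbad⟩
      by_cases hP : P ∈ (insert none (some '' bad p) : Set (Option K))
      · left
        exact Set.mem_biUnion hP ⟨Q, hC, rfl⟩
      · by_cases hQ : Q ∈ (insert none (some '' bad (swap p)) : Set (Option K))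
        · right
          exact Set.mem_biUnion hQ ⟨P, (mem_curve_swap p P Q).2 hC, rfl⟩
        · exfalso
          apply hbad
          rcases P with _ | a
          · exact absurd (Set.mem_insert _ _) hP
          rcases Q with _ | b
          · exact absurd (Set.mem_insert _ _) hQ
          exact ⟨a, b, rfl, fun ha => hP (Set.mem_insert_of_mem _ ⟨a, ha, rfl⟩),
            fun hb => hQ (Set.mem_insert_of_mem _ ⟨b, hb, rfl⟩)⟩
    refine Set.Finite.subset (Set.Finite.union ?_ ?_) hsub
    · exact Set.Finite.biUnion ((h.bad_finite.image _).insert _) fun P _ =>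
        (h.fibre_finite P).image _
    · exact Set.Finite.biUnion ((h.swap.bad_finite.image _).insert _) fun Q _ =>
        (h.swap.fibre_finite Q).image _
  have h2 : ((↑) : curve p → Option K × Option K) '' {P : curve p | ¬ GoodPt p P.1} ⊆
      curve p ∩ {P | ¬ GoodPt p P} := by
    rintro _ ⟨P, hP, rfl⟩
    exact ⟨P.2, hP⟩
  exact (Set.Finite.subset h1 h2).of_finite_image Subtype.val_injective.injOn

/-- Points with a common first coordinate lie in the same component. -/
lemma same_comp_fst {p : K[X][Y]} {P Q : curve p} (h : P.1.1 = Q.1.1) :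
    (orbitGraph p).connectedComponentMk P = (orbitGraph p).connectedComponentMk Q := by
  by_cases he : P = Q
  · rw [he]
  · exact SimpleGraph.ConnectedComponent.sound
      (SimpleGraph.Adj.reachable ⟨he, Or.inl h⟩)

lemma same_comp_snd {p : K[X][Y]} {P Q : curve p} (h : P.1.2 = Q.1.2) :
    (orbitGraph p).connectedComponentMk P = (orbitGraph p).connectedComponentMk Q := by
  by_cases he : P = Q
  · rw [he]
  · exact SimpleGraph.ConnectedComponent.sound
      (SimpleGraph.Adj.reachable ⟨he, Or.inr h⟩)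

/-- The finite set of first coordinates of a finite component. -/
lemma exists_goodPair {p : K[X][Y]} (c : (orbitGraph p).ConnectedComponent)
    (hfin : c.supp.Finite) (hgood : ∀ P ∈ c.supp, GoodPt p P.1) :
    ∃ A B : Finset K, GoodPair p A B ∧ A.Nonempty ∧
      (∀ a, a ∈ A ↔ ∃ P ∈ c.supp, P.1.1 = some a) ∧
      (∀ b, b ∈ B ↔ ∃ P ∈ c.supp, P.1.2 = some b) := by
  have hA : {a : K | ∃ P ∈ c.supp, P.1.1 = some a}.Finite := by
    have h1 : (some ⁻¹' ((fun P : curve p => P.1.1) '' c.supp)).Finite :=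
      (hfin.image _).preimage (Option.some_injective K).injOn
    refine h1.subset ?_
    rintro a ⟨P, hP, e⟩
    exact ⟨P, hP, e⟩
  have hB : {b : K | ∃ P ∈ c.supp, P.1.2 = some b}.Finite := by
    have h1 : (some ⁻¹' ((fun P : curve p => P.1.2) '' c.supp)).Finite :=
      (hfin.image _).preimage (Option.some_injective K).injOn
    refine h1.subset ?_
    rintro a ⟨P, hP, e⟩
    exact ⟨P, hP, e⟩
  have hnotA : ∀ a, (∃ P ∈ c.supp, P.1.1 = some a) → a ∉ bad p := by
    rintro a ⟨P, hP, e⟩
    obtain ⟨a', b', e', h1, h2⟩ := hgood P hP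
    rw [e'] at e
    simp only [Option.some.injEq] at e
    rw [← e]
    exact h1
  have hnotB : ∀ b, (∃ P ∈ c.supp, P.1.2 = some b) → b ∉ bad (swap p) := by
    rintro b ⟨P, hP, e⟩
    obtain ⟨a', b', e', h1, h2⟩ := hgood P hP
    rw [e'] at e
    simp only [Option.some.injEq] at e
    rw [← e]
    exact h2
  refine ⟨hA.toFinset, hB.toFinset, ?_, ?_, fun a => hA.mem_toFinset, fun b => hB.mem_toFinset⟩
  · constructor
    · intro a ha h0
      exact hnotA a (hA.mem_toFinset.1 ha) (Or.inl h0)
    · intro a ha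
      by_contra h0
      exact hnotA a (hA.mem_toFinset.1 ha) (Or.inr h0)
    · intro a ha b hab
      obtain ⟨P, hP, e⟩ := hA.mem_toFinset.1 ha
      rw [hB.mem_toFinset]
      refine ⟨⟨(some a, some b), (mem_curve_some p a b).2 hab⟩, ?_, rfl⟩
      rw [SimpleGraph.ConnectedComponent.mem_supp_iff] at hP ⊢
      rw [← hP]
      exact (same_comp_fst (by rw [e])).symm
    · intro b hb h0
      exact hnotB b (hB.mem_toFinset.1 hb) (Or.inl h0)
    · intro b hb
      by_contra h0
      exact hnotB b (hB.mem_toFinset.1 hb) (Or.inr h0)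
    · intro b hb a hab
      obtain ⟨P, hP, e⟩ := hB.mem_toFinset.1 hb
      rw [hA.mem_toFinset]
      refine ⟨⟨(some a, some b), (mem_curve_some p a b).2 hab⟩, ?_, rfl⟩
      rw [SimpleGraph.ConnectedComponent.mem_supp_iff] at hP ⊢
      rw [← hP]
      exact (same_comp_snd (by rw [e])).symm
  · obtain ⟨P, hP⟩ := c.nonempty_supp
    obtain ⟨a, b, e, _, _⟩ := hgood P hP
    exact ⟨a, hA.mem_toFinset.2 ⟨P, hP, by rw [e]⟩⟩

/-! ### Membership in the field of separated multiples -/

lemma mem_multiples {p : K[X][Y]} (hp : Prime p) {q : FractionRing K[X][Y]} {u w : K[X][Y]}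
    (hw0 : w ≠ 0) (hq : q = algebraMap K[X][Y] _ u / algebraMap K[X][Y] _ w) (hu : p ∣ u)
    (hw : ¬ p ∣ w) : q ∈ multiples p := by
  have hinj := FaithfulSMul.algebraMap_injective K[X][Y] (FractionRing K[X][Y])
  have h1 := IsFractionRing.mk'_num_den' K[X][Y] q
  have hd0 : (IsFractionRing.den K[X][Y] q : K[X][Y]) ≠ 0 := nonZeroDivisors.coe_ne_zero _
  have h2 : u * (IsFractionRing.den K[X][Y] q : K[X][Y]) = IsFractionRing.num K[X][Y] q * w := by
    apply hinj
    rw [map_mul, map_mul]
    rw [hq, div_eq_div_iff] at h1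
    · rw [hq]
      exact h1.symm
    · rw [Ne, map_eq_zero_iff _ hinj]
      exact nonZeroDivisors.coe_ne_zero _
    · rw [Ne, map_eq_zero_iff _ hinj]
      exact hw0
  have hnum : p ∣ IsFractionRing.num K[X][Y] q := by
    have : p ∣ IsFractionRing.num K[X][Y] q * w := by
      rw [← h2]
      exact Dvd.dvd.mul_right hu _
    exact (hp.dvd_or_dvd this).resolve_right hw
  refine ⟨fun hden => ?_, hnum⟩
  exact hp.not_isUnit ((IsFractionRing.num_den_reduced K[X][Y] q) hnum hden)

lemma C_dvd_not {p : K[X][Y]} (h : Adm p) {r : K[X]} (hr : r ≠ 0) : ¬ p ∣ C r := by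
  rintro ⟨s, hs⟩
  have hs0 : s ≠ 0 := by
    rintro rfl
    rw [mul_zero, C_eq_zero] at hs
    exact hr hs
  have := congrArg natDegree hs
  rw [natDegree_C, natDegree_mul h.irr.ne_zero hs0] at this
  have := h.natDegree_pos
  omega

lemma mapC_dvd_not {p : K[X][Y]} (h : Adm p) {r : K[X]} (hr : r ≠ 0) : ¬ p ∣ r.map C := by
  intro hd
  have := (map_dvd (swap (R := K)) hd)
  rw [swap_map_C] at this
  exact C_dvd_not h.swap hr this

lemma inX_div {a b : K[X]} (hb : b ≠ 0) :
    inX (algebraMap K[X] (RatFunc K) a / algebraMap K[X] (RatFunc K) b) =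
      algebraMap K[X][Y] _ (C a) / algebraMap K[X][Y] _ (C b) := by
  set f := algebraMap K[X] (RatFunc K) a / algebraMap K[X] (RatFunc K) b with hf
  have hinj := FaithfulSMul.algebraMap_injective K[X][Y] (FractionRing K[X][Y])
  have h1 : f.num * b = a * f.denom := by
    apply RatFunc.algebraMap_injective K
    have h2 := RatFunc.num_div_denom f
    rw [map_mul, map_mul]
    have hd : algebraMap K[X] (RatFunc K) f.denom ≠ 0 := RatFunc.algebraMap_ne_zero f.denom_ne_zero
    have hb' : algebraMap K[X] (RatFunc K) b ≠ 0 := RatFunc.algebraMap_ne_zero hb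
    rw [hf, div_eq_div_iff (by rw [← hf]; exact hd) hb'] at h2
    rw [hf]
    exact h2
  unfold inX
  have h3 : (C f.num * C b : K[X][Y]) = C a * C f.denom := by rw [← C_mul, ← C_mul, h1]
  rw [div_eq_div_iff, ← map_mul (algebraMap K[X][Y] (FractionRing K[X][Y])),
    ← map_mul (algebraMap K[X][Y] (FractionRing K[X][Y])), h3]
  · rw [Ne, map_eq_zero_iff _ hinj, C_eq_zero]
    exact f.denom_ne_zero
  · rw [Ne, map_eq_zero_iff _ hinj, C_eq_zero]
    exact hb

lemma inY_div {a b : K[X]} (hb : b ≠ 0) :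
    inY (algebraMap K[X] (RatFunc K) a / algebraMap K[X] (RatFunc K) b) =
      algebraMap K[X][Y] _ (a.map C) / algebraMap K[X][Y] _ (b.map C) := by
  set f := algebraMap K[X] (RatFunc K) a / algebraMap K[X] (RatFunc K) b with hf
  have hinj := FaithfulSMul.algebraMap_injective K[X][Y] (FractionRing K[X][Y])
  have h1 : f.num * b = a * f.denom := by
    apply RatFunc.algebraMap_injective K
    have h2 := RatFunc.num_div_denom f
    rw [map_mul, map_mul]
    have hd : algebraMap K[X] (RatFunc K) f.denom ≠ 0 := RatFunc.algebraMap_ne_zero f.denom_ne_zero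
    have hb' : algebraMap K[X] (RatFunc K) b ≠ 0 := RatFunc.algebraMap_ne_zero hb
    rw [hf, div_eq_div_iff (by rw [← hf]; exact hd) hb'] at h2
    rw [hf]
    exact h2
  unfold inY
  have h3 : (f.num.map C * b.map C : K[X][Y]) = a.map C * f.denom.map C := by
    rw [← Polynomial.map_mul, ← Polynomial.map_mul, h1]
  rw [div_eq_div_iff, ← map_mul (algebraMap K[X][Y] (FractionRing K[X][Y])),
    ← map_mul (algebraMap K[X][Y] (FractionRing K[X][Y])), h3]
  · rw [Ne, map_eq_zero_iff _ hinj, Polynomial.map_eq_zero_iff C_injective]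
    exact f.denom_ne_zero
  · rw [Ne, map_eq_zero_iff _ hinj, Polynomial.map_eq_zero_iff C_injective]
    exact hb

/-- The polynomial `∏ (X - a)`. -/
noncomputable def pp (A : Finset K) : K[X] := ∏ a ∈ A, (X - C a)

lemma pp_ne_zero (A : Finset K) : pp A ≠ 0 := by
  unfold pp
  rw [Finset.prod_ne_zero_iff]
  exact fun a _ => X_sub_C_ne_zero a

lemma aeval_pp {L : Type*} [Field L] [Algebra K L] (A : Finset K) (x : L) :
    aeval x (pp A) = pr A x := by
  unfold pp pr
  rw [map_prod]
  exact Finset.prod_congr rfl fun a _ => by rw [map_sub, aeval_X, aeval_C]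

lemma eval_pp_zero {A : Finset K} {a : K} (ha : a ∈ A) : (pp A).eval a = 0 := by
  unfold pp
  rw [eval_prod]
  exact Finset.prod_eq_zero ha (by simp)

lemma eval_pp_ne {A : Finset K} {a : K} (ha : a ∉ A) : (pp A).eval a ≠ 0 := by
  unfold pp
  rw [eval_prod, Finset.prod_ne_zero_iff]
  intro b hb
  rw [eval_sub, eval_X, eval_C, sub_ne_zero]
  exact fun e => ha (e ▸ hb)

lemma exists_ff' {Q L : Type u} [CommRing Q] [IsDomain Q] [Algebra K Q] [Field L] [Algebra Q L]
    [IsFractionRing Q L] [Algebra K L] [IsScalarTower K Q L] (π : K[X][Y] →+* Q)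
    (hπ : ∀ c : K, π (C (C c)) = algebraMap K Q c) :
    ∃ (x y : L), ∀ q : K[X][Y], aevalAeval x y q = 0 ↔ π q = 0 := by
  let π' : K[X][Y] →ₐ[K] Q := { π with commutes' := hπ }
  refine ⟨algebraMap Q L (π' (C X)), algebraMap Q L (π' Y), fun q => ?_⟩
  have h1 : aevalAeval (algebraMap Q L (π' (C X))) (algebraMap Q L (π' Y)) =
      (IsScalarTower.toAlgHom K Q L).comp π' :=
    (aevalAevalEquiv K L).apply_symm_apply ((IsScalarTower.toAlgHom K Q L).comp π')
  rw [h1, AlgHom.comp_apply, IsScalarTower.toAlgHom_apply,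
    map_eq_zero_iff _ (IsFractionRing.injective Q L)]
  rfl

lemma exists_ff (I : Ideal K[X][Y]) [I.IsPrime] :
    ∃ (L : Type u) (_ : Field L) (_ : Algebra K L) (x y : L),
      ∀ q : K[X][Y], aevalAeval x y q = 0 ↔ q ∈ I := by
  obtain ⟨x, y, h⟩ := exists_ff' (Q := K[X][Y] ⧸ I) (L := FractionRing (K[X][Y] ⧸ I))
    (Ideal.Quotient.mk I) (fun c => rfl)
  refine ⟨FractionRing (K[X][Y] ⧸ I), inferInstance, inferInstance, x, y, fun q => ?_⟩
  rw [h q, Ideal.Quotient.eq_zero_iff_mem]

/-- The function field of the curve. -/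
lemma exists_functionField {p : K[X][Y]} (h : Adm p) :
    ∃ (L : Type u) (_ : Field L) (_ : Algebra K L) (x y : L),
      ∀ q : K[X][Y], aevalAeval x y q = 0 ↔ p ∣ q := by
  have hprime : Prime p := h.irr.prime
  have hI : (Ideal.span {p} : Ideal K[X][Y]).IsPrime :=
    (Ideal.span_singleton_prime hprime.ne_zero).2 hprime
  obtain ⟨L, i1, i2, x, y, hq⟩ := exists_ff (Ideal.span {p} : Ideal K[X][Y])
  exact ⟨L, i1, i2, x, y, fun q => by rw [hq, Ideal.mem_span_singleton]⟩

/-- Two disjoint good pairs give a nonconstant separated multiple. -/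
theorem not_trivial_of_pairs [IsAlgClosed K] {p : K[X][Y]} (h : Adm p)
    {A B A' B' : Finset K} (hG : GoodPair p A B) (hG' : GoodPair p A' B')
    (hA : Disjoint A A') (hB : Disjoint B B') (hne : A.Nonempty) (hne' : A'.Nonempty) :
    ¬ SepTrivial p := by
  have hprime : Prime p := h.irr.prime
  obtain ⟨L, _, _, x, y, hker⟩ := exists_functionField h
  have hp0 : aevalAeval x y p = 0 := (hker p).2 dvd_rfl
  have hxc : ∀ c : K, algebraMap K L c ≠ x := by
    intro c hc
    have h1 : aevalAeval x y (C (X - C c)) = 0 := by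
      rw [aevalAeval_C, map_sub, aeval_X, aeval_C, hc, sub_self]
    exact C_dvd_not h (X_sub_C_ne_zero c) ((hker _).1 h1)
  have hyc : ∀ c : K, algebraMap K L c ≠ y := by
    intro c hc
    have h1 : aevalAeval x y ((X - C c : K[X]).map C) = 0 := by
      rw [aevalAeval_map_C, map_sub, aeval_X, aeval_C, hc, sub_self]
    exact mapC_dvd_not h (X_sub_C_ne_zero c) ((hker _).1 h1)
  obtain ⟨c, hc⟩ := exists_const hp0 hxc hyc hG hG' hA hB
  set N' := A'.card * p.natDegree with hN'
  set N := A.card * p.natDegree with hN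
  have hN'pos : 0 < N' := Nat.mul_pos (Finset.card_pos.2 hne') h.natDegree_pos
  -- the polynomials
  set u : K[X][Y] := C (pp A ^ N') * (pp B' ^ N).map C -
    (C c * pp B ^ N' : K[X]).map C * C (pp A' ^ N) with hu
  set w : K[X][Y] := C (pp A' ^ N) * (pp B' ^ N).map C with hw
  have hpu : p ∣ u := by
    rw [← hker, hu, map_sub, map_mul, map_mul, aevalAeval_C, aevalAeval_map_C,
      aevalAeval_map_C, aevalAeval_C, map_mul, aeval_C, map_pow, map_pow, map_pow, map_pow,
      aeval_pp, aeval_pp, aeval_pp, aeval_pp, hc]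
    ring
  have hpw : ¬ p ∣ w := by
    intro hd
    rcases hprime.dvd_or_dvd hd with h1 | h1
    · exact C_dvd_not h (pow_ne_zero _ (pp_ne_zero A')) h1
    · exact mapC_dvd_not h (pow_ne_zero _ (pp_ne_zero B')) h1
  have hw0 : w ≠ 0 := by
    rintro h0
    exact hpw (h0 ▸ dvd_zero p)
  intro htriv
  obtain ⟨d, hd⟩ := htriv (algebraMap K[X] (RatFunc K) (pp A ^ N') /
      algebraMap K[X] (RatFunc K) (pp A' ^ N),
    algebraMap K[X] (RatFunc K) (C c * pp B ^ N') /
      algebraMap K[X] (RatFunc K) (pp B' ^ N)) (by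
    refine mem_multiples hprime hw0 (u := u) ?_ hpu hpw
    rw [inX_div (pow_ne_zero _ (pp_ne_zero A')), inY_div (pow_ne_zero _ (pp_ne_zero B')),
      div_sub_div, hu, hw, map_sub, map_mul, map_mul, map_mul, mul_comm (algebraMap K[X][Y] _ (C _))
      (algebraMap K[X][Y] _ (Polynomial.map C (C c * _)))]
    · rw [Ne, map_eq_zero_iff _ (FaithfulSMul.algebraMap_injective K[X][Y]
        (FractionRing K[X][Y])), C_eq_zero]
      exact pow_ne_zero _ (pp_ne_zero A')
    · rw [Ne, map_eq_zero_iff _ (FaithfulSMul.algebraMap_injective K[X][Y]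
        (FractionRing K[X][Y])), Polynomial.map_eq_zero_iff C_injective]
      exact pow_ne_zero _ (pp_ne_zero B'))
  have h1 := congrArg Prod.fst hd
  simp only at h1
  have h2 : pp A ^ N' = C d * pp A' ^ N := by
    apply RatFunc.algebraMap_injective K
    rw [map_mul, RatFunc.algebraMap_C, ← h1,
      div_mul_cancel₀ _ (RatFunc.algebraMap_ne_zero (pow_ne_zero N (pp_ne_zero A')))]
  obtain ⟨a, ha⟩ := hne
  have h3 := congrArg (eval a) h2
  rw [eval_pow, eval_pp_zero ha, zero_pow hN'pos.ne', eval_mul, eval_C, eval_pow] at h3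
  have h4 : d = 0 := by
    rcases mul_eq_zero.1 h3.symm with h5 | h5
    · exact h5
    · exact absurd h5 (pow_ne_zero _ (eval_pp_ne (Finset.disjoint_left.1 hA ha)))
  rw [h4, C_0, zero_mul] at h2
  exact pow_ne_zero _ (pp_ne_zero A) h2

/-- Main theorem. -/
theorem main [IsAlgClosed K] [CharZero K] {p : K[X][Y]} (h : Adm p) (htriv : SepTrivial p) :
    {c : (orbitGraph p).ConnectedComponent | c.supp.Finite}.Finite := by
  by_contra hinf
  have hinf : {c : (orbitGraph p).ConnectedComponent | c.supp.Finite}.Infinite := hinf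
  have hbad : ((orbitGraph p).connectedComponentMk '' {P : curve p | ¬ GoodPt p P.1}).Finite :=
    (badPts_finite h).image _
  have hinf2 := hinf.sdiff hbad
  obtain ⟨c, hc⟩ := hinf2.nonempty
  obtain ⟨c', hc', hcc⟩ := hinf2.nontrivial.exists_ne c
  have hgood : ∀ e ∈ {c : (orbitGraph p).ConnectedComponent | c.supp.Finite} \
      ((orbitGraph p).connectedComponentMk '' {P : curve p | ¬ GoodPt p P.1}),
      ∀ P ∈ e.supp, GoodPt p P.1 := by
    intro e he P hP
    by_contra hb
    rw [SimpleGraph.ConnectedComponent.mem_supp_iff] at hP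
    exact he.2 ⟨P, hb, hP⟩
  obtain ⟨A, B, hG, hne, hAi, hBi⟩ := exists_goodPair c hc.1 (hgood c hc)
  obtain ⟨A', B', hG', hne', hAi', hBi'⟩ := exists_goodPair c' hc'.1 (hgood c' hc')
  have hA : Disjoint A A' := by
    rw [Finset.disjoint_left]
    intro a ha ha'
    obtain ⟨P, hP, e⟩ := (hAi a).1 ha
    obtain ⟨P', hP', e'⟩ := (hAi' a).1 ha'
    rw [SimpleGraph.ConnectedComponent.mem_supp_iff] at hP hP'
    apply hcc
    rw [← hP, ← hP']
    exact same_comp_fst (by rw [e, e'])
  have hB : Disjoint B B' := by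
    rw [Finset.disjoint_left]
    intro b hb hb'
    obtain ⟨P, hP, e⟩ := (hBi b).1 hb
    obtain ⟨P', hP', e'⟩ := (hBi' b).1 hb'
    rw [SimpleGraph.ConnectedComponent.mem_supp_iff] at hP hP'
    apply hcc
    rw [← hP, ← hP']
    exact same_comp_snd (by rw [e, e'])
  exact not_trivial_of_pairs h hG hG' hA hB hne hne' htriv

end Q49.SepOrb
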