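import Pool.Agent.Q49.SepVal

/-! Good pairs (projections of a good finite orbit). -/

namespace Q49.SepVal

open Polynomial Polynomial.Bivariate

variable {K L : Type*} [Field K] [Field L] [Algebra K L]

/-- Coordinates of a finite orbit which avoids the bad fibres. -/
structure GoodPair (p : K[X][Y]) (A B : Finset K) : Prop where
  lcA : ∀ a ∈ A, p.leadingCoeff.eval a ≠ 0
  sepA : ∀ a ∈ A, (p.map (evalRingHom a)).Separable
  clA : ∀ a ∈ A, ∀ b, p.evalEval a b = 0 → b ∈ B
  lcB : ∀ b ∈ B, (swap p).leadingCoeff.eval b ≠ 0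
  sepB : ∀ b ∈ B, ((swap p).map (evalRingHom b)).Separable
  clB : ∀ b ∈ B, ∀ a, p.evalEval a b = 0 → a ∈ A

lemma evalEval_swap (p : K[X][Y]) (a b : K) : (swap p).evalEval b a = p.evalEval a b := by
  rw [← coe_aevalAeval_eq_evalEval, ← coe_aevalAeval_eq_evalEval,
    Polynomial.Bivariate.aevalAeval_swap]

lemma GoodPair.symm {p : K[X][Y]} {A B : Finset K} (h : GoodPair p A B) :
    GoodPair (swap p) B A where
  lcA := h.lcB
  sepA := h.sepB
  clA := fun b hb a hab => h.clB b hb a (by rw [← evalEval_swap]; exact hab)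
  lcB := by rw [swap_swap_apply]; exact h.lcA
  sepB := by rw [swap_swap_apply]; exact h.sepA
  clB := fun a ha b hab => h.clA a ha b (by rw [← evalEval_swap]; exact hab)

lemma card_fibre [IsAlgClosed K] [DecidableEq K] {p : K[X][Y]} {A B : Finset K}
    (h : GoodPair p A B) {a : K} (ha : a ∈ A) :
    (B.filter fun b => p.evalEval a b = 0).card = p.natDegree := by
  have h1 : (p.map (evalRingHom a)).natDegree = p.natDegree :=
    natDegree_map_of_leadingCoeff_ne_zero _ (h.lcA a ha)
  have h2 := h.sepA a ha
  have h3 : (p.map (evalRingHom a)).roots.toFinset.card = (p.map (evalRingHom a)).natDegree := by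
    rw [Multiset.toFinset_card_of_nodup (nodup_roots h2)]
    exact (IsAlgClosed.splits _).natDegree_eq_card_roots.symm
  rw [← h1, ← h3]
  congr 1
  ext b
  rw [Finset.mem_filter, Multiset.mem_toFinset, mem_roots h2.ne_zero, IsRoot.def,
    map_evalRingHom_eval]
  constructor
  · exact fun hb => hb.2
  · exact fun hb => ⟨h.clA a ha b hb, hb⟩

/-- The counting relation. -/
lemma GoodPair.card_mul [IsAlgClosed K] {p : K[X][Y]} {A B : Finset K} (h : GoodPair p A B) :
    A.card * p.natDegree = B.card * (swap p).natDegree := by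
  classical
  have h1 : ∑ a ∈ A, (B.filter fun b => p.evalEval a b = 0).card = A.card * p.natDegree := by
    rw [Finset.sum_congr rfl fun a ha => card_fibre h ha, Finset.sum_const, smul_eq_mul]
  have h2 : ∑ b ∈ B, (A.filter fun a => p.evalEval a b = 0).card =
      B.card * (swap p).natDegree := by
    rw [← smul_eq_mul, ← Finset.sum_const]
    refine Finset.sum_congr rfl fun b hb => ?_
    rw [← card_fibre h.symm hb]
    congr 1
    ext a
    rw [Finset.mem_filter, Finset.mem_filter, evalEval_swap]
  rw [← h1, ← h2]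
  exact Finset.sum_card_bipartiteAbove_eq_sum_card_bipartiteBelow _

/-- The product `∏ (x - a)`. -/
noncomputable def pr (A : Finset K) (x : L) : L := ∏ a ∈ A, (x - algebraMap K L a)

lemma val_pr_close [DecidableEq K] (V : ValuationSubring L) (hV : ∀ c : K, algebraMap K L c ∈ V)
    {x : L} {a : K} (h : V.valuation (x - algebraMap K L a) < 1) {A : Finset K} (ha : a ∈ A) :
    V.valuation (pr A x) = V.valuation (x - algebraMap K L a) := by
  unfold pr
  rw [← Finset.mul_prod_erase _ _ ha, map_mul, map_prod, Finset.prod_eq_one, mul_one]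
  intro b hb
  exact val_sub_ne V hV h (Finset.ne_of_mem_erase hb)

lemma val_pr_far (V : ValuationSubring L) (hV : ∀ c : K, algebraMap K L c ∈ V)
    {x : L} {a : K} (h : V.valuation (x - algebraMap K L a) < 1) {A : Finset K} (ha : a ∉ A) :
    V.valuation (pr A x) = 1 := by
  unfold pr
  rw [map_prod, Finset.prod_eq_one]
  intro b hb
  exact val_sub_ne V hV h (fun e => ha (e ▸ hb))

lemma val_pr_const (V : ValuationSubring L) (hV : ∀ c : K, algebraMap K L c ∈ V) (x : L)
    (A : Finset K) (h : ∀ a ∈ A, 1 ≤ V.valuation (x - algebraMap K L a)) :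
    V.valuation (pr A x) = (max 1 (V.valuation x)) ^ A.card := by
  unfold pr
  rw [map_prod, ← Finset.prod_const]
  refine Finset.prod_congr rfl fun a ha => ?_
  have hca : V.valuation (algebraMap K L a) ≤ 1 := (V.valuation_le_one_iff _).2 (hV a)
  rcases le_or_gt (V.valuation x) 1 with hx | hx
  · rw [max_eq_left hx]
    refine le_antisymm ?_ (h a ha)
    exact (Valuation.map_sub _ _ _).trans (max_le hx hca)
  · rw [max_eq_right hx.le, Valuation.map_sub_swap]
    exact Valuation.map_sub_eq_of_lt_right _ (hca.trans_lt hx)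

/-- If `x` is close to a point of `A`, then `y` is equally close to a point of `B`. -/
lemma close_pair [IsAlgClosed K] (V : ValuationSubring L) (hV : ∀ c : K, algebraMap K L c ∈ V)
    {x y : L} {p : K[X][Y]} (hp : aevalAeval x y p = 0) {A B : Finset K} (hG : GoodPair p A B)
    {a : K} (ha : a ∈ A) (h : V.valuation (x - algebraMap K L a) < 1) :
    ∃ b ∈ B, V.valuation (y - algebraMap K L b) = V.valuation (x - algebraMap K L a) ∧
      V.valuation (y - algebraMap K L b) < 1 := by
  obtain ⟨b, hb, hb1, hb2⟩ := val_key V hV p hp (hG.lcA a ha) (hG.sepA a ha) h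
  rw [map_evalRingHom_eval] at hb
  have hbB := hG.clA a ha b hb
  have hps : aevalAeval y x (swap p) = 0 := by
    rw [Polynomial.Bivariate.aevalAeval_swap]; exact hp
  obtain ⟨a', ha', ha1, ha2⟩ := val_key V hV (swap p) hps (hG.lcB b hbB) (hG.sepB b hbB) hb1
  have hea : a' = a := by
    by_contra hne
    rw [val_sub_ne V hV h hne] at ha1
    exact lt_irrefl _ ha1
  subst hea
  exact ⟨b, hbB, le_antisymm hb2 ha2, hb1⟩

/-- The valuation identity for two good pairs. -/
lemma val_identity [IsAlgClosed K] (V : ValuationSubring L) (hV : ∀ c : K, algebraMap K L c ∈ V)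
    {x y : L} {p : K[X][Y]} (hp : aevalAeval x y p = 0) {A B A' B' : Finset K}
    (hG : GoodPair p A B) (hG' : GoodPair p A' B') (hA : Disjoint A A') (hB : Disjoint B B') :
    V.valuation (pr A x ^ (A'.card * p.natDegree) * pr B' y ^ (A.card * p.natDegree)) =
    V.valuation (pr A' x ^ (A.card * p.natDegree) * pr B y ^ (A'.card * p.natDegree)) := by
  classical
  simp only [map_mul, map_pow]
  by_cases h1 : ∃ a ∈ A, V.valuation (x - algebraMap K L a) < 1
  · obtain ⟨a, ha, hlt⟩ := h1
    obtain ⟨b, hb, e, hblt⟩ := close_pair V hV hp hG ha hlt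
    rw [val_pr_close V hV hlt ha, val_pr_far V hV hlt (Finset.disjoint_left.1 hA ha),
      val_pr_close V hV hblt hb, val_pr_far V hV hblt (Finset.disjoint_left.1 hB hb), e]
    simp
  by_cases h2 : ∃ a ∈ A', V.valuation (x - algebraMap K L a) < 1
  · obtain ⟨a, ha, hlt⟩ := h2
    obtain ⟨b, hb, e, hblt⟩ := close_pair V hV hp hG' ha hlt
    rw [val_pr_close V hV hlt ha, val_pr_far V hV hlt (Finset.disjoint_right.1 hA ha),
      val_pr_close V hV hblt hb, val_pr_far V hV hblt (Finset.disjoint_right.1 hB hb), e]
    simp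
  push Not at h1 h2
  have hps : aevalAeval y x (swap p) = 0 := by
    rw [Polynomial.Bivariate.aevalAeval_swap]; exact hp
  have h3 : ∀ b ∈ B, 1 ≤ V.valuation (y - algebraMap K L b) := by
    intro b hb
    by_contra hlt
    push Not at hlt
    obtain ⟨a, ha, _, ha1⟩ := close_pair V hV hps hG.symm hb hlt
    exact absurd ha1 (not_lt.2 (h1 a ha))
  have h4 : ∀ b ∈ B', 1 ≤ V.valuation (y - algebraMap K L b) := by
    intro b hb
    by_contra hlt
    push Not at hlt
    obtain ⟨a, ha, _, ha1⟩ := close_pair V hV hps hG'.symm hb hlt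
    exact absurd ha1 (not_lt.2 (h2 a ha))
  rw [val_pr_const V hV x A h1, val_pr_const V hV x A' h2, val_pr_const V hV y B h3,
    val_pr_const V hV y B' h4, ← pow_mul, ← pow_mul, ← pow_mul, ← pow_mul]
  have c1 := hG.card_mul
  have c2 := hG'.card_mul
  rw [show A.card * (A'.card * p.natDegree) = A'.card * (A.card * p.natDegree) by ring,
    show B'.card * (A.card * p.natDegree) = B.card * (A'.card * p.natDegree) by
      rw [c1, c2]; ring]

/-- An element lying in all valuation rings containing the constants is constant. -/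
lemma const_of_mem_all [IsAlgClosed K] {h : L}
    (hh : ∀ V : ValuationSubring L, (∀ c : K, algebraMap K L c ∈ V) → h ∈ V) :
    ∃ c : K, algebraMap K L c = h := by
  have h1 : h ∈ (⨅ V : {V : ValuationSubring L //
      (((algebraMap K L).range : Subring L) : Set L) ⊆ V.toSubring}, V.1.toSubring) := by
    rw [Subring.mem_iInf]
    rintro ⟨V, hV⟩
    exact hh V fun c => hV ⟨c, rfl⟩
  rw [iInf_valuationSubring_superset, Subring.closure_eq] at h1
  have h2 : IsIntegral ((algebraMap K L).range) h := h1
  let _ : Algebra K (algebraMap K L).range := (algebraMap K L).rangeRestrict.toAlgebra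
  have _ : IsScalarTower K (algebraMap K L).range L := IsScalarTower.of_algebraMap_eq' rfl
  have _ : Algebra.IsIntegral K (algebraMap K L).range := by
    constructor
    rintro ⟨z, c, rfl⟩
    exact isIntegral_algebraMap (R := K) (A := (algebraMap K L).range) (x := c)
  have h3 : IsIntegral K h := isIntegral_trans (R := K) (A := (algebraMap K L).range) h h2
  exact minpoly.mem_range_of_degree_eq_one K h
    (IsAlgClosed.degree_eq_one_of_irreducible K (minpoly.irreducible h3))

lemma pr_ne_zero {x : L} (hx : ∀ c : K, algebraMap K L c ≠ x) (A : Finset K) :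
    pr A x ≠ 0 := by
  unfold pr
  rw [Finset.prod_ne_zero_iff]
  intro a _ h
  exact hx a (sub_eq_zero.1 h).symm

/-- The identity between functions of `x` and functions of `y`. -/
lemma exists_const [IsAlgClosed K] {x y : L} {p : K[X][Y]} (hp : aevalAeval x y p = 0)
    (hx : ∀ c : K, algebraMap K L c ≠ x) (hy : ∀ c : K, algebraMap K L c ≠ y)
    {A B A' B' : Finset K} (hG : GoodPair p A B) (hG' : GoodPair p A' B')
    (hA : Disjoint A A') (hB : Disjoint B B') :
    ∃ c : K, pr A x ^ (A'.card * p.natDegree) * pr B' y ^ (A.card * p.natDegree) =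
      algebraMap K L c *
        (pr A' x ^ (A.card * p.natDegree) * pr B y ^ (A'.card * p.natDegree)) := by
  set u := pr A x ^ (A'.card * p.natDegree) * pr B' y ^ (A.card * p.natDegree) with hu
  set w := pr A' x ^ (A.card * p.natDegree) * pr B y ^ (A'.card * p.natDegree) with hw
  have hw0 : w ≠ 0 := mul_ne_zero (pow_ne_zero _ (pr_ne_zero hx A'))
    (pow_ne_zero _ (pr_ne_zero hy B))
  obtain ⟨c, hc⟩ := const_of_mem_all (K := K) (h := u / w) (by
    intro V hV
    rw [← V.valuation_le_one_iff, map_div₀, val_identity V hV hp hG hG' hA hB]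
    rw [div_self]
    rw [Ne, map_eq_zero]
    exact hw0)
  exact ⟨c, by rw [hc]; field_simp⟩

end Q49.SepVal
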