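import Mathlib

/-! Valuation theoretic part for finite orbits on plane curves. -/

namespace Q49.SepVal

open Polynomial Polynomial.Bivariate

variable {K L : Type*} [Field K] [Field L] [Algebra K L]

/-- Constants different from zero are units. -/
lemma val_const (V : ValuationSubring L) (hV : ∀ c : K, algebraMap K L c ∈ V) {c : K}
    (hc : c ≠ 0) : V.valuation (algebraMap K L c) = 1 := by
  have h1 : V.valuation (algebraMap K L c) ≤ 1 := (V.valuation_le_one_iff _).2 (hV c)
  have h2 : V.valuation (algebraMap K L c⁻¹) ≤ 1 := (V.valuation_le_one_iff _).2 (hV _)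
  rw [map_inv₀, map_inv₀] at h2
  have h3 : V.valuation (algebraMap K L c) ≠ 0 := by
    rw [Ne, map_eq_zero, map_eq_zero]
    exact hc
  refine le_antisymm h1 ?_
  exact (inv_le_one₀ (zero_lt_iff.2 h3)).1 h2

lemma val_sub_ne (V : ValuationSubring L) (hV : ∀ c : K, algebraMap K L c ∈ V) {x : L} {a a' : K}
    (h : V.valuation (x - algebraMap K L a) < 1) (hne : a' ≠ a) :
    V.valuation (x - algebraMap K L a') = 1 := by
  have e : x - algebraMap K L a' = (x - algebraMap K L a) + algebraMap K L (a - a') := by
    rw [map_sub]; ring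
  have h2 := val_const V hV (sub_ne_zero.2 (Ne.symm hne))
  rw [e, Valuation.map_add_eq_of_lt_right V.valuation (by rw [h2]; exact h), h2]

lemma aeval_mem (V : ValuationSubring L) (hV : ∀ c : K, algebraMap K L c ∈ V) {x : L}
    (hx : x ∈ V) (q : K[X]) : aeval x q ∈ V := by
  rw [aeval_eq_sum_range]
  refine sum_mem fun i _ => ?_
  rw [Algebra.smul_def]
  exact mul_mem (hV _) (pow_mem hx _)

lemma aevalAeval_mem (V : ValuationSubring L) (hV : ∀ c : K, algebraMap K L c ∈ V) {x y : L}
    (hx : x ∈ V) (hy : y ∈ V) (q : K[X][Y]) : aevalAeval x y q ∈ V := by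
  induction q using Polynomial.induction_on' with
  | add p q hp hq => rw [map_add]; exact add_mem hp hq
  | monomial n a =>
    rw [← C_mul_X_pow_eq_monomial, map_mul, map_pow, aevalAeval_C, aevalAeval_Y]
    exact mul_mem (aeval_mem V hV hx a) (pow_mem hy _)

lemma val_aeval_sub (V : ValuationSubring L) (hV : ∀ c : K, algebraMap K L c ∈ V) {x : L} {a : K}
    (hx : x ∈ V) (q : K[X]) :
    V.valuation (aeval x q - algebraMap K L (q.eval a)) ≤ V.valuation (x - algebraMap K L a) := by
  obtain ⟨r, hr⟩ := Polynomial.X_sub_C_dvd_sub_C_eval (a := a) (p := q)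
  have h := congrArg (aeval x) hr
  rw [map_sub, aeval_C, map_mul, map_sub, aeval_X, aeval_C] at h
  rw [h, map_mul]
  have h2 : V.valuation (aeval x r) ≤ 1 := (V.valuation_le_one_iff _).2 (aeval_mem V hV hx r)
  exact mul_le_of_le_one_right' h2

lemma mem_of_lt (V : ValuationSubring L) (hV : ∀ c : K, algebraMap K L c ∈ V) {x : L} {a : K}
    (h : V.valuation (x - algebraMap K L a) < 1) : x ∈ V := by
  have h1 : x - algebraMap K L a ∈ V := (V.valuation_le_one_iff _).1 h.le
  have := add_mem h1 (hV a)
  simpa using this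

/-- If `x ≡ a` then `y` is integral. -/
lemma y_mem (V : ValuationSubring L) (hV : ∀ c : K, algebraMap K L c ∈ V) {x y : L} {a : K}
    (p : K[X][Y]) (hp : aevalAeval x y p = 0) (hlc : p.leadingCoeff.eval a ≠ 0)
    (h : V.valuation (x - algebraMap K L a) < 1) : y ∈ V := by
  have hx := mem_of_lt V hV h
  by_contra hy
  have hy1 : 1 < V.valuation y := by
    by_contra h1
    exact hy ((V.valuation_le_one_iff _).1 (not_lt.1 h1))
  have hc : V.valuation (aeval x p.leadingCoeff) = 1 := by
    have h1 := val_aeval_sub V hV (a := a) hx p.leadingCoeff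
    have h2 := val_const V hV hlc
    have e : aeval x p.leadingCoeff = (aeval x p.leadingCoeff -
      algebraMap K L (p.leadingCoeff.eval a)) + algebraMap K L (p.leadingCoeff.eval a) := by ring
    rw [e, Valuation.map_add_eq_of_lt_right V.valuation (by rw [h2]; exact h1.trans_lt h), h2]
  have hsum : aevalAeval x y p = ∑ j ∈ Finset.range (p.natDegree + 1),
      aeval x (p.coeff j) * y ^ j := by
    conv_lhs => rw [p.as_sum_range_C_mul_X_pow]
    rw [map_sum]
    refine Finset.sum_congr rfl fun j _ => ?_
    rw [map_mul, map_pow, aevalAeval_C, aevalAeval_Y]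
  rw [hsum, Finset.sum_range_succ, add_eq_zero_iff_eq_neg'] at hp
  have h1 := congrArg V.valuation hp
  rw [Valuation.map_neg, map_mul, map_pow] at h1
  change V.valuation (aeval x p.leadingCoeff) * _ = _ at h1
  rw [hc, one_mul] at h1
  have h2 : V.valuation (∑ j ∈ Finset.range p.natDegree, aeval x (p.coeff j) * y ^ j) <
      V.valuation y ^ p.natDegree := by
    refine Valuation.map_sum_lt _ ?_ ?_
    · exact (pow_pos (zero_lt_one.trans hy1) _).ne'
    · intro j hj
      rw [Finset.mem_range] at hj
      rw [map_mul, map_pow]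
      have h3 : V.valuation (aeval x (p.coeff j)) ≤ 1 :=
        (V.valuation_le_one_iff _).2 (aeval_mem V hV hx _)
      exact (mul_le_of_le_one_left' h3).trans_lt (pow_lt_pow_right₀ hy1 hj)
  rw [← h1] at h2
  exact lt_irrefl _ h2

lemma sub_dvd (p : K[X][Y]) (a : K) :
    ∃ w : K[X][Y], p = (p.map (evalRingHom a)).map C + C (X - C a) * w := by
  have h : C (X - C a) ∣ p - (p.map (evalRingHom a)).map C := by
    rw [C_dvd_iff_dvd_coeff]
    intro i
    rw [coeff_sub, coeff_map, coeff_map]
    exact Polynomial.X_sub_C_dvd_sub_C_eval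
  obtain ⟨w, hw⟩ := h
  exact ⟨w, by rw [← hw]; ring⟩

lemma aevalAeval_map_C (x y : L) (q : K[X]) : aevalAeval x y (q.map C) = aeval y q := by
  rw [← Polynomial.Bivariate.swap_C, Polynomial.Bivariate.aevalAeval_swap, aevalAeval_C]

/-- Key lemma. -/
lemma val_key [IsAlgClosed K] (V : ValuationSubring L) (hV : ∀ c : K, algebraMap K L c ∈ V)
    {x y : L} {a : K} (p : K[X][Y]) (hp : aevalAeval x y p = 0)
    (hlc : p.leadingCoeff.eval a ≠ 0) (hsep : (p.map (evalRingHom a)).Separable)
    (h : V.valuation (x - algebraMap K L a) < 1) :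
    ∃ b : K, (p.map (evalRingHom a)).eval b = 0 ∧ V.valuation (y - algebraMap K L b) < 1 ∧
      V.valuation (y - algebraMap K L b) ≤ V.valuation (x - algebraMap K L a) := by
  have hx := mem_of_lt V hV h
  have hy := y_mem V hV p hp hlc h
  obtain ⟨w, hw⟩ := sub_dvd p a
  set pa := p.map (evalRingHom a) with hpa
  have h1 : aeval y pa = -((x - algebraMap K L a) * aevalAeval x y w) := by
    have := congrArg (aevalAeval x y) hw
    rw [hp, map_add, map_mul, aevalAeval_map_C, aevalAeval_C, map_sub, aeval_X, aeval_C] at this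
    linear_combination -this
  have h2 : V.valuation (aeval y pa) ≤ V.valuation (x - algebraMap K L a) := by
    rw [h1, Valuation.map_neg, map_mul]
    exact mul_le_of_le_one_right' ((V.valuation_le_one_iff _).2 (aevalAeval_mem V hV hx hy w))
  have hne : pa ≠ 0 := hsep.ne_zero
  have hsplit : pa.Splits := IsAlgClosed.splits pa
  -- some root is close to `y`
  obtain ⟨b, hb, hyb⟩ : ∃ b ∈ pa.roots, V.valuation (y - algebraMap K L b) < 1 := by
    by_contra hcon
    push Not at hcon
    have e := hsplit.eq_prod_roots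
    have e2 := congrArg (fun q => V.valuation (aeval y q)) e
    simp only [map_mul, aeval_C] at e2
    rw [val_const V hV (leadingCoeff_ne_zero.2 hne), one_mul] at e2
    have h3 : 1 ≤ V.valuation (aeval y (pa.roots.map (fun a => X - C a)).prod) := by
      rw [map_multiset_prod, map_multiset_prod, Multiset.map_map, Multiset.map_map]
      refine Multiset.one_le_prod_of_one_le ?_
      intro t ht
      rw [Multiset.mem_map] at ht
      obtain ⟨b, hb, rfl⟩ := ht
      have := hcon b hb
      simpa using this
    rw [← e2] at h3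
    exact absurd (h2.trans_lt h) (not_lt.2 h3)
  rw [mem_roots hne, IsRoot.def] at hb
  refine ⟨b, hb, hyb, ?_⟩
  -- factor out the root
  obtain ⟨q, hq⟩ := dvd_iff_isRoot.2 hb
  have hqb : q.eval b ≠ 0 := by
    intro h0
    have hd := hsep.squarefree
    obtain ⟨s, hs⟩ := dvd_iff_isRoot.2 h0
    have : (X - C b) * (X - C b) ∣ pa := ⟨s, by rw [hq, hs]; ring⟩
    exact not_isUnit_X_sub_C b (hd _ this)
  have h4 : V.valuation (aeval y q) = 1 := by
    have h5 := val_aeval_sub V hV (a := b) hy q
    have h6 := val_const V hV hqb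
    have e : aeval y q = (aeval y q - algebraMap K L (q.eval b)) +
      algebraMap K L (q.eval b) := by ring
    rw [e, Valuation.map_add_eq_of_lt_right V.valuation (by rw [h6]; exact h5.trans_lt hyb), h6]
  have h7 : V.valuation (aeval y pa) = V.valuation (y - algebraMap K L b) := by
    rw [hq, map_mul, map_mul, h4, mul_one, map_sub, aeval_X, aeval_C]
  rw [← h7]
  exact h2

end Q49.SepVal
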